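import Pool.Agent.Lib.MP_f146a9_al.DVC.Defs

namespace Pool.Agent.Lib.MP_f146a9_al.DV

theorem pr_zero {v v' : Sq} {l l' : ℤ} (hv : Lead v l) (hv' : Lead v' l') (h : l + l' < 1) :
    pr v v' = 0 := by
  unfold pr
  refine finsum_eq_zero_of_forall_eq_zero fun a => ?_
  rcases lt_or_ge l a with h1 | h1
  · rw [hv.2 a h1, zero_mul, mul_zero]
  · rw [hv'.2 (1 - a) (by omega), mul_zero, mul_zero]

theorem pr_ne {v v' : Sq} {j : ℤ} (hv : Lead v j) (hv' : Lead v' (1 - j)) : pr v v' ≠ 0 := by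
  unfold pr
  rw [finsum_eq_single _ j]
  · exact mul_ne_zero (zpow_ne_zero _ (by norm_num)) (mul_ne_zero hv.1 hv'.1)
  · intro a ha
    rcases lt_or_gt_of_ne ha with h1 | h1
    · rw [hv'.2 (1 - a) (by omega), mul_zero, mul_zero]
    · rw [hv.2 a h1, zero_mul, mul_zero]

private theorem FormC_at {n : ℕ} (c : ZMod (n + 3)) (r : ℚ) (v : Sq) {a : ℤ}
    (h : (a : ZMod (n + 3)) = c) : gz c r v a = v a + r * (v a - v (a + 1)) := by
  show (if (a : ZMod (n + 3)) = c then v a + r * (v a - v (a + 1))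
    else if (a : ZMod (n + 3)) = c + 1 then v a + r * (v (a - 1) - v a) else v a) = _
  rw [if_pos h]

private theorem FormC_at1 {n : ℕ} (c : ZMod (n + 3)) (r : ℚ) (v : Sq) {a : ℤ}
    (h : (a : ZMod (n + 3)) = c + 1) : gz c r v a = v a + r * (v (a - 1) - v a) := by
  show (if (a : ZMod (n + 3)) = c then v a + r * (v a - v (a + 1))
    else if (a : ZMod (n + 3)) = c + 1 then v a + r * (v (a - 1) - v a) else v a) = _
  rw [if_neg (by rw [h]; exact zadd_ne c), if_pos h]

private theorem FormC_else {n : ℕ} (c : ZMod (n + 3)) (r : ℚ) (v : Sq) {a : ℤ}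
    (h : (a : ZMod (n + 3)) ≠ c) (h1 : (a : ZMod (n + 3)) ≠ c + 1) : gz c r v a = v a := by
  show (if (a : ZMod (n + 3)) = c then v a + r * (v a - v (a + 1))
    else if (a : ZMod (n + 3)) = c + 1 then v a + r * (v (a - 1) - v a) else v a) = _
  rw [if_neg h, if_neg h1]

private theorem FormC_bd {n : ℕ} (c : ZMod (n + 3)) (r : ℚ) {v : Sq} {l : ℤ}
    (hv : ∀ a, l < a → v a = 0) : ∀ a, l + 1 < a → gz c r v a = 0 := by
  intro a ha
  by_cases h : (a : ZMod (n + 3)) = c
  · rw [FormC_at c r v h, hv a (by omega), hv (a + 1) (by omega)]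
    ring
  · by_cases h1 : (a : ZMod (n + 3)) = c + 1
    · rw [FormC_at1 c r v h1, hv a (by omega), hv (a - 1) (by omega)]
      ring
    · rw [FormC_else c r v h h1, hv a (by omega)]

private theorem FormC_inv {n : ℕ} (c : ZMod (n + 3)) (r : ℚ) {v v' : Sq} {l l' : ℤ}
    (hv : ∀ a, l < a → v a = 0) (hv' : ∀ a, l' < a → v' a = 0) :
    pr (gz c r v) (gz (-c) r v') = pr v v' := by
  classical
  set F : ℤ → ℚ := fun a => (-1 : ℚ) ^ a * (gz c r v a * gz (-c) r v' (1 - a)) with hF
  set G : ℤ → ℚ := fun a => (-1 : ℚ) ^ a * (v a * v' (1 - a)) with hG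
  set E : ℤ → ℚ := fun a => if (a : ZMod (n + 3)) = c then F a - G a else 0 with hE
  have hFz : ∀ a, (a < -l' ∨ l + 1 < a) → F a = 0 := by
    intro a ha
    rcases ha with ha | ha
    · simp only [hF]
      rw [FormC_bd (-c) r hv' (1 - a) (by omega), mul_zero, mul_zero]
    · simp only [hF]
      rw [FormC_bd c r hv a ha, zero_mul, mul_zero]
  have hGz : ∀ a, (a < -l' ∨ l + 1 < a) → G a = 0 := by
    intro a ha
    rcases ha with ha | ha
    · simp only [hG]
      rw [hv' (1 - a) (by omega), mul_zero, mul_zero]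
    · simp only [hG]
      rw [hv a (by omega), zero_mul, mul_zero]
  have hEz : ∀ a, (a < -l' ∨ l + 1 < a) → E a = 0 := by
    intro a ha
    simp only [hE]
    split_ifs
    · rw [hFz a ha, hGz a ha, sub_zero]
    · rfl
  have hfin : ∀ H : ℤ → ℚ, (∀ a, (a < -l' ∨ l + 1 < a) → H a = 0) → (Function.support H).Finite := by
    intro H hH
    refine (Set.finite_Icc (-l') (l + 1)).subset fun a ha => ?_
    by_contra hcon
    rw [Set.mem_Icc, not_and_or, not_le, not_le] at hcon
    exact ha (hH a hcon)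
  have hpt : ∀ a, F a = G a + (E a - E (a - 1)) := by
    intro a
    have hm1 : (((a - 1 : ℤ)) : ZMod (n + 3)) = c ↔ (a : ZMod (n + 3)) = c + 1 := by
      push_cast
      constructor
      · intro h
        rw [← h]
        ring
      · intro h
        rw [h]
        ring
    by_cases h : (a : ZMod (n + 3)) = c
    · have h2 : ¬ (((a - 1 : ℤ)) : ZMod (n + 3)) = c := by
        rw [hm1, h]
        exact (zadd_ne c).symm
      simp only [hE]
      rw [if_pos h, if_neg h2]
      ring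
    · by_cases h1 : (a : ZMod (n + 3)) = c + 1
      · have h2 : (((a - 1 : ℤ)) : ZMod (n + 3)) = c := hm1.2 h1
        simp only [hE]
        rw [if_neg h, if_pos h2]
        simp only [hF, hG]
        have k1 : ((1 - a : ℤ) : ZMod (n + 3)) = -c := by
          push_cast
          rw [h1]
          ring
        have k2 : ((1 - (a - 1) : ℤ) : ZMod (n + 3)) = -c + 1 := by
          push_cast
          rw [h1]
          ring
        rw [FormC_at1 c r v h1, FormC_at (-c) r v' k1, FormC_at c r v h2, FormC_at1 (-c) r v' k2]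
        have e1 : (1 : ℤ) - (a - 1) = 1 - a + 1 := by ring
        have e2 : (1 : ℤ) - a + 1 - 1 = 1 - a := by ring
        have e3 : a - 1 + 1 = a := by ring
        rw [e1, e2, e3]
        have e4 : (-1 : ℚ) ^ a = -(-1 : ℚ) ^ (a - 1) := by
          have : a = a - 1 + 1 := by ring
          rw [this, zpow_add₀ (by norm_num), zpow_one, add_sub_cancel_right]
          ring
        rw [e4]
        ring
      · have h2 : ¬ (((a - 1 : ℤ)) : ZMod (n + 3)) = c := fun h3 => h1 (hm1.1 h3)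
        simp only [hE]
        rw [if_neg h, if_neg h2]
        simp only [hF, hG]
        have k1 : ((1 - a : ℤ) : ZMod (n + 3)) ≠ -c := by
          intro h3
          apply h1
          push_cast at h3
          have : (a : ZMod (n + 3)) = 1 - (1 - a) := by ring
          rw [this, h3]
          ring
        have k2 : ((1 - a : ℤ) : ZMod (n + 3)) ≠ -c + 1 := by
          intro h3
          apply h
          push_cast at h3
          have : (a : ZMod (n + 3)) = 1 - (1 - a) := by ring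
          rw [this, h3]
          ring
        rw [FormC_else c r v h h1, FormC_else (-c) r v' k1 k2]
        ring
  have h1 : pr (gz c r v) (gz (-c) r v') = ∑ᶠ a, (G a + (E a - E (a - 1))) := by
    unfold pr
    exact finsum_congr hpt
  have hE' : (Function.support fun a => E (a - 1)).Finite := by
    refine (Set.finite_Icc (-l' + 1) (l + 1 + 1)).subset fun a ha => ?_
    by_contra hcon
    rw [Set.mem_Icc, not_and_or, not_le, not_le] at hcon
    refine ha (hEz (a - 1) ?_)
    omega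
  have hEE : (Function.support fun a => E a - E (a - 1)).Finite := by
    refine ((hfin E hEz).union hE').subset fun a ha => ?_
    by_contra hcon
    rw [Set.mem_union, not_or] at hcon
    refine ha ?_
    have q1 : E a = 0 := by
      by_contra hq
      exact hcon.1 hq
    have q2 : E (a - 1) = 0 := by
      by_contra hq
      exact hcon.2 hq
    simp only [q1, q2, sub_zero]
  rw [h1, finsum_add_distrib (hfin G hGz) hEE, finsum_sub_distrib (hfin E hEz) hE']
  have h2 : ∑ᶠ a, E (a - 1) = ∑ᶠ a, E a := finsum_comp_equiv (Equiv.subRight (1 : ℤ)) (f := E)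
  rw [h2, sub_self, add_zero]
  rfl

private theorem FormC_comm {n : ℕ} (i j : ZMod (n + 3)) (hij : i ≠ j) (h1 : j ≠ i + 1)
    (h2 : i ≠ j + 1) (r : ℚ) (v : Sq) : gz i r (gz j r v) = gz j r (gz i r v) := by
  have key : ∀ i j : ZMod (n + 3), i ≠ j → j ≠ i + 1 → i ≠ j + 1 → ∀ a : ℤ,
      ((a : ZMod (n + 3)) = i ∨ (a : ZMod (n + 3)) = i + 1) →
      gz i r (gz j r v) a = gz j r (gz i r v) a := by
    intro i j hij h1 h2 a ha
    rcases ha with ha | ha
    · have e1 : (a : ZMod (n + 3)) ≠ j := by rw [ha]; exact hij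
      have e2 : (a : ZMod (n + 3)) ≠ j + 1 := by rw [ha]; exact h2
      have e3 : ((a + 1 : ℤ) : ZMod (n + 3)) ≠ j := by
        push_cast; rw [ha]; exact h1.symm
      have e4 : ((a + 1 : ℤ) : ZMod (n + 3)) ≠ j + 1 := by
        push_cast; rw [ha]; exact fun h => hij (add_right_cancel h)
      rw [FormC_at i r _ ha, FormC_else j r v e1 e2, FormC_else j r v e3 e4,
        FormC_else j r _ e1 e2, FormC_at i r v ha]
    · have e1 : (a : ZMod (n + 3)) ≠ j := by rw [ha]; exact h1.symm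
      have e2 : (a : ZMod (n + 3)) ≠ j + 1 := by
        rw [ha]; exact fun h => hij (add_right_cancel h)
      have e3 : ((a - 1 : ℤ) : ZMod (n + 3)) ≠ j := by
        push_cast; rw [ha, add_sub_cancel_right]; exact hij
      have e4 : ((a - 1 : ℤ) : ZMod (n + 3)) ≠ j + 1 := by
        push_cast; rw [ha, add_sub_cancel_right]; exact h2
      rw [FormC_at1 i r _ ha, FormC_else j r v e1 e2, FormC_else j r v e3 e4,
        FormC_else j r _ e1 e2, FormC_at1 i r v ha]
  funext a
  by_cases a1 : (a : ZMod (n + 3)) = i ∨ (a : ZMod (n + 3)) = i + 1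
  · exact key i j hij h1 h2 a a1
  · by_cases a2 : (a : ZMod (n + 3)) = j ∨ (a : ZMod (n + 3)) = j + 1
    · exact (key j i hij.symm h2 h1 a a2).symm
    · rw [not_or] at a1 a2
      rw [FormC_else i r _ a1.1 a1.2, FormC_else j r _ a2.1 a2.2, FormC_else j r _ a2.1 a2.2,
        FormC_else i r _ a1.1 a1.2]

private theorem FormC_res {k : ℕ} (i : Fin (k + 3)) (h0 : (i : ℕ) ≠ 0) (h1 : (i : ℕ) ≠ k + 2) :
    zc i ≠ -zc i ∧ -zc i ≠ zc i + 1 ∧ zc i ≠ -zc i + 1 := by
  have hlt := i.2
  refine ⟨fun h => ?_, fun h => ?_, fun h => ?_⟩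
  · rw [← zc_coe] at h
    have h2 : (((i : ℕ) : ℤ) : ZMod (2 * k + 1 + 3)) = ((-((i : ℕ) : ℤ) : ℤ) : ZMod (2 * k + 1 + 3)) := by
      push_cast
      push_cast at h
      exact h
    rw [z_eq_iff] at h2
    obtain ⟨q, hq⟩ := h2
    have h3 : ((i : ℕ) : ℤ) + q * (k + 2) = 0 := by linarith
    have h4 : (0 : ℤ) < ((i : ℕ) : ℤ) := by omega
    have h5 : ((i : ℕ) : ℤ) < k + 2 := by omega
    rcases lt_or_ge q 0 with hq0 | hq0
    · have : q * ((k : ℤ) + 2) ≤ -1 * (k + 2) :=
        mul_le_mul_of_nonneg_right (by omega) (by positivity)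
      linarith
    · have : 0 ≤ q * ((k : ℤ) + 2) := mul_nonneg hq0 (by positivity)
      linarith
  · rw [← zc_coe] at h
    have h2 : ((-((i : ℕ) : ℤ) : ℤ) : ZMod (2 * k + 1 + 3)) =
        ((((i : ℕ) : ℤ) + 1 : ℤ) : ZMod (2 * k + 1 + 3)) := by
      push_cast
      push_cast at h
      exact h
    rw [z_eq_iff] at h2
    obtain ⟨q, hq⟩ := h2
    obtain ⟨t, ht⟩ : ∃ t : ℤ, t = q * (k + 2) := ⟨_, rfl⟩
    have h3 : ((i : ℕ) : ℤ) + 1 = -((i : ℕ) : ℤ) + 2 * t := by
      rw [ht]
      linarith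
    omega
  · rw [← zc_coe] at h
    have h2 : ((((i : ℕ) : ℤ) : ℤ) : ZMod (2 * k + 1 + 3)) =
        ((-((i : ℕ) : ℤ) + 1 : ℤ) : ZMod (2 * k + 1 + 3)) := by
      push_cast
      push_cast at h
      exact h
    rw [z_eq_iff] at h2
    obtain ⟨q, hq⟩ := h2
    obtain ⟨t, ht⟩ : ∃ t : ℤ, t = q * (k + 2) := ⟨_, rfl⟩
    have h3 : -((i : ℕ) : ℤ) + 1 = ((i : ℕ) : ℤ) + 2 * t := by
      rw [ht]
      linarith
    omega

theorem pr_gzC {k : ℕ} (i : Fin (k + 3)) (r : ℚ) {v v' : Sq} {l l' : ℤ} (hv : Lead v l)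
    (hv' : Lead v' l') : pr (gzC i r v) (gzC i r v') = pr v v' := by
  unfold gzC
  by_cases h : (i : ℕ) = 0 ∨ (i : ℕ) = k + 2
  · rw [if_pos h]
    have h1 := FormC_inv (n := 2 * k + 1) (zc i) r hv.2 hv'.2
    rw [zc_neg_eq i h] at h1
    exact h1
  · rw [if_neg h]
    rw [not_or] at h
    obtain ⟨r1, r2, r3⟩ := FormC_res i h.1 h.2
    show pr (gz (n := 2 * k + 1) (zc i) r (gz (n := 2 * k + 1) (-zc i) r v))
      (gz (n := 2 * k + 1) (zc i) r (gz (n := 2 * k + 1) (-zc i) r v')) = pr v v'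
    rw [FormC_comm (n := 2 * k + 1) (zc i) (-zc i) r1 r2 r3 r v',
      FormC_inv (n := 2 * k + 1) (zc i) r (FormC_bd (-zc i) r hv.2) (FormC_bd (zc i) r hv'.2)]
    have h1 := FormC_inv (n := 2 * k + 1) (-zc i) r hv.2 hv'.2
    rw [neg_neg] at h1
    exact h1

end Pool.Agent.Lib.MP_f146a9_al.DV
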