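import Pool.Agent.Lib.MP_f146a9_al.DVC.Defs
import Pool.Agent.Lib.MP_f146a9_al.DVZ.HomZ

/-! The homomorphism from the Artin group of type C~ to the symmetric periodic operators. -/

namespace Pool.Agent.Lib.MP_f146a9_al.DV

private theorem altProd_map {G H : Type*} [Group G] [Group H] (f : G →* H) (m : ℕ) (a b : G) :
    f (altProd a b m) = altProd (f a) (f b) m := by
  induction m generalizing a b with
  | zero => exact map_one f
  | succ m ih =>
    change f (a * altProd b a m) = f a * altProd (f b) (f a) m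
    rw [map_mul, ih]

private theorem re {M : Type*} [Monoid M] {a b c d : M} (h : a * b = c * d) (x : M) :
    a * (b * x) = c * (d * x) := by
  rw [← mul_assoc, h, mul_assoc]

private theorem re3 {M : Type*} [Monoid M] {a b : M} (h : a * b * a = b * a * b) (x : M) :
    a * (b * (a * x)) = b * (a * (b * x)) := by
  rw [← mul_assoc, ← mul_assoc, h, mul_assoc, mul_assoc]

private theorem re3' {M : Type*} [Monoid M] {a b : M} (h : a * b * a = b * a * b) :
    a * (b * a) = b * (a * b) := by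
  rw [← mul_assoc, h, mul_assoc]

private theorem br2 {M : Type*} [Monoid M] {a b a' b' : M} (h1 : a * b = b * a)
    (h2 : a * b' = b' * a) (h3 : a' * b = b * a') (h4 : a' * b' = b' * a') :
    (a * a') * ((b * b') * 1) = (b * b') * ((a * a') * 1) := by
  rw [mul_one, mul_one]
  calc (a * a') * (b * b') = a * (a' * (b * b')) := by rw [mul_assoc]
    _ = a * (b * (a' * b')) := by rw [re h3]
    _ = b * (a * (a' * b')) := by rw [re h1]
    _ = b * (a * (b' * a')) := by rw [h4]
    _ = b * (b' * (a * a')) := by rw [re h2]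
    _ = (b * b') * (a * a') := by rw [mul_assoc]

private theorem br3 {M : Type*} [Monoid M] {a b a' b' : M} (h1 : a * b * a = b * a * b)
    (h2 : a' * b' * a' = b' * a' * b') (h3 : a * a' = a' * a) (h4 : b * b' = b' * b)
    (h5 : a * b' = b' * a) (h6 : a' * b = b * a') :
    (a * a') * ((b * b') * ((a * a') * 1)) = (b * b') * ((a * a') * ((b * b') * 1)) := by
  rw [mul_one, mul_one]
  calc (a * a') * ((b * b') * (a * a')) = a * (a' * (b * (b' * (a * a')))) := by
        simp only [mul_assoc]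
    _ = a * (b * (a' * (b' * (a * a')))) := by rw [re h6]
    _ = a * (b * (a' * (a * (b' * a')))) := by rw [re h5.symm]
    _ = a * (b * (a * (a' * (b' * a')))) := by rw [re h3.symm]
    _ = b * (a * (b * (a' * (b' * a')))) := by rw [re3 h1]
    _ = b * (a * (b * (b' * (a' * b')))) := by rw [re3' h2]
    _ = b * (a * (b' * (b * (a' * b')))) := by rw [re h4]
    _ = b * (a * (b' * (a' * (b * b')))) := by rw [re h6]
    _ = b * (b' * (a * (a' * (b * b')))) := by rw [re h5]
    _ = (b * b') * ((a * a') * (b * b')) := by simp only [mul_assoc]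

private theorem br4 {M : Type*} [Monoid M] {a t a' : M} (h1 : a * t * a = t * a * t)
    (h2 : a' * t * a' = t * a' * t) (h3 : a * a' = a' * a) :
    (a * a') * (t * ((a * a') * (t * 1))) = t * ((a * a') * (t * ((a * a') * 1))) := by
  rw [mul_one, mul_one]
  calc (a * a') * (t * ((a * a') * t)) = a * (a' * (t * (a * (a' * t)))) := by
        simp only [mul_assoc]
    _ = a * (a' * (t * (a' * (a * t)))) := by rw [re h3 t]
    _ = a * (t * (a' * (t * (a * t)))) := by rw [re3 h2]
    _ = a * (t * (a' * (a * (t * a)))) := by rw [re3' h1]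
    _ = a * (t * (a * (a' * (t * a)))) := by rw [re h3.symm (t * a)]
    _ = t * (a * (t * (a' * (t * a)))) := by rw [re3 h1]
    _ = t * (a * (a' * (t * (a' * a)))) := by rw [re3 h2]
    _ = t * (a * (a' * (t * (a * a')))) := by rw [h3]
    _ = t * ((a * a') * (t * (a * a'))) := by simp only [mul_assoc]

private theorem zne {k : ℕ} (a b : ℤ) (h0 : a ≠ b) (h1 : a - b < 2 * (k : ℤ) + 4) (h2 : b - a < 2 * (k : ℤ) + 4) :
    (a : ZMod (2 * k + 1 + 3)) ≠ (b : ZMod (2 * k + 1 + 3)) := by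
  intro h
  obtain ⟨q, hq⟩ := (z_eq_iff a b).1 h
  have hk : (0 : ℤ) ≤ k := Int.natCast_nonneg k
  rcases lt_trichotomy q 0 with hq0 | hq0 | hq0
  · nlinarith
  · rw [hq0] at hq
    exact h0 (by linarith)
  · nlinarith

private theorem nzc {k : ℕ} (i : Fin (k + 3)) : -zc i = (((-((i : ℕ) : ℤ) : ℤ)) : ZMod (2 * k + 1 + 3)) := by
  rw [Int.cast_neg, zc_coe]

/-- admissible pairs of integers: their classes are different and not neighbours -/
private theorem far {k : ℕ} (a b : ℤ) (h0 : 2 ≤ a - b) (h1 : a - b ≤ 2 * (k : ℤ) + 2) :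
    (a : ZMod (2 * k + 1 + 3)) ≠ (b : ZMod (2 * k + 1 + 3)) ∧
      (b : ZMod (2 * k + 1 + 3)) ≠ (a : ZMod (2 * k + 1 + 3)) + 1 ∧
      (a : ZMod (2 * k + 1 + 3)) ≠ (b : ZMod (2 * k + 1 + 3)) + 1 := by
  have e1 : (a : ZMod (2 * k + 1 + 3)) + 1 = ((a + 1 : ℤ) : ZMod (2 * k + 1 + 3)) := by push_cast; rfl
  have e2 : (b : ZMod (2 * k + 1 + 3)) + 1 = ((b + 1 : ℤ) : ZMod (2 * k + 1 + 3)) := by push_cast; rfl
  rw [e1, e2]
  refine ⟨zne a b (by omega) (by omega) (by omega), zne b (a + 1) (by omega) (by omega) (by omega),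
    zne a (b + 1) (by omega) (by omega) (by omega)⟩

section

variable {k : ℕ} {G : Type*} [Group G] (u : ZMod (2 * k + 1 + 3) → G)
  (hc : ∀ x y, x ≠ y → y ≠ x + 1 → x ≠ y + 1 → u x * u y = u y * u x)
  (hb : ∀ x, u x * u (x + 1) * u x = u (x + 1) * u x * u (x + 1))

private def guC (i : Fin (k + 3)) : G :=
  if (i : ℕ) = 0 ∨ (i : ℕ) = k + 2 then u (zc i) else u (zc i) * u (-zc i)

include hc in
private theorem cfar (a b : ℤ) (h : 2 ≤ a - b ∨ 2 ≤ b - a) (h1 : a - b ≤ 2 * (k : ℤ) + 2)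
    (h2 : b - a ≤ 2 * (k : ℤ) + 2) : u (a : ZMod (2 * k + 1 + 3)) * u (b : ZMod (2 * k + 1 + 3)) =
      u (b : ZMod (2 * k + 1 + 3)) * u (a : ZMod (2 * k + 1 + 3)) := by
  rcases h with h | h
  · obtain ⟨h3, h4, h5⟩ := far (k := k) a b h h1
    exact hc _ _ h3 h4 h5
  · obtain ⟨h3, h4, h5⟩ := far (k := k) b a h h2
    exact (hc _ _ h3 h4 h5).symm

include hc in
private theorem cself (i : Fin (k + 3)) (h : ¬ ((i : ℕ) = 0 ∨ (i : ℕ) = k + 2)) :
    u (zc i) * u (-zc i) = u (-zc i) * u (zc i) := by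
  have hi := i.is_lt
  rw [nzc, ← zc_coe]
  exact cfar u hc _ _ (by omega) (by omega) (by omega)

include hc in
private theorem altC2 (i j : Fin (k + 3)) (hij : (i : ℕ) ≠ j) (h1 : (j : ℕ) + 1 ≠ i) (h2 : (i : ℕ) + 1 ≠ j) :
    guC u i * (guC u j * 1) = guC u j * (guC u i * 1) := by
  have hi := i.is_lt
  have hj := j.is_lt
  have c1 : u (zc i) * u (zc j) = u (zc j) * u (zc i) := by
    rw [← zc_coe, ← zc_coe]
    exact cfar u hc _ _ (by omega) (by omega) (by omega)
  by_cases h3 : (i : ℕ) = 0 ∨ (i : ℕ) = k + 2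
  · by_cases h4 : (j : ℕ) = 0 ∨ (j : ℕ) = k + 2
    · rw [guC, guC, if_pos h3, if_pos h4, mul_one, mul_one]
      exact c1
    · have c2 : u (zc i) * u (-zc j) = u (-zc j) * u (zc i) := by
        rw [nzc, ← zc_coe]
        exact cfar u hc _ _ (by omega) (by omega) (by omega)
      rw [guC, guC, if_pos h3, if_neg h4, mul_one, mul_one, ← mul_assoc, c1, mul_assoc, c2, ← mul_assoc]
  · by_cases h4 : (j : ℕ) = 0 ∨ (j : ℕ) = k + 2
    · have c3 : u (-zc i) * u (zc j) = u (zc j) * u (-zc i) := by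
        rw [nzc, ← zc_coe]
        exact cfar u hc _ _ (by omega) (by omega) (by omega)
      rw [guC, guC, if_neg h3, if_pos h4, mul_one, mul_one, mul_assoc, c3, ← mul_assoc, c1, mul_assoc]
    · have c2 : u (zc i) * u (-zc j) = u (-zc j) * u (zc i) := by
        rw [nzc, ← zc_coe]
        exact cfar u hc _ _ (by omega) (by omega) (by omega)
      have c3 : u (-zc i) * u (zc j) = u (zc j) * u (-zc i) := by
        rw [nzc, ← zc_coe]
        exact cfar u hc _ _ (by omega) (by omega) (by omega)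
      have c4 : u (-zc i) * u (-zc j) = u (-zc j) * u (-zc i) := by
        rw [nzc, nzc]
        exact cfar u hc _ _ (by omega) (by omega) (by omega)
      rw [guC, guC, if_neg h3, if_neg h4]
      exact br2 c1 c2 c3 c4

private theorem zsucc (i j : Fin (k + 3)) (h : (i : ℕ) + 1 = j) : zc j = zc i + 1 := by
  rw [zc, zc, ← h]
  push_cast
  rfl

private theorem nzsucc (i j : Fin (k + 3)) (h : (i : ℕ) + 1 = j) : -zc i = -zc j + 1 := by
  rw [zsucc i j h]
  ring

include hc hb in
private theorem altC3 (i j : Fin (k + 3)) (h : (i : ℕ) + 1 = j)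
    (h3 : ¬ ((i : ℕ) = 0 ∨ (i : ℕ) = k + 2)) (h4 : ¬ ((j : ℕ) = 0 ∨ (j : ℕ) = k + 2)) :
    guC u i * (guC u j * (guC u i * 1)) = guC u j * (guC u i * (guC u j * 1)) := by
  have hi := i.is_lt
  have hj := j.is_lt
  have b1 : u (zc i) * u (zc j) * u (zc i) = u (zc j) * u (zc i) * u (zc j) := by
    rw [zsucc i j h]
    exact hb _
  have b2 : u (-zc i) * u (-zc j) * u (-zc i) = u (-zc j) * u (-zc i) * u (-zc j) := by
    rw [nzsucc i j h]
    exact (hb _).symm
  have c2 : u (zc i) * u (-zc j) = u (-zc j) * u (zc i) := by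
    rw [nzc, ← zc_coe]
    exact cfar u hc _ _ (by omega) (by omega) (by omega)
  have c3 : u (-zc i) * u (zc j) = u (zc j) * u (-zc i) := by
    rw [nzc, ← zc_coe]
    exact cfar u hc _ _ (by omega) (by omega) (by omega)
  rw [guC, guC, if_neg h3, if_neg h4]
  exact br3 b1 b2 (cself u hc i h3) (cself u hc j h4) c2 c3

include hc hb in
private theorem altC4 (i j : Fin (k + 3)) (h : (j : ℕ) + 1 = i ∨ (i : ℕ) + 1 = j)
    (h3 : ¬ ((i : ℕ) = 0 ∨ (i : ℕ) = k + 2)) (h4 : (j : ℕ) = 0 ∨ (j : ℕ) = k + 2) :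
    guC u i * (guC u j * (guC u i * (guC u j * 1))) = guC u j * (guC u i * (guC u j * (guC u i * 1))) := by
  have hi := i.is_lt
  have hj := j.is_lt
  have hn : -zc j = zc j := zc_neg_eq j h4
  rw [guC, guC, if_neg h3, if_pos h4]
  rcases h with h | h
  · have b1 : u (zc i) * u (zc j) * u (zc i) = u (zc j) * u (zc i) * u (zc j) := by
      rw [zsucc j i h]
      exact (hb _).symm
    have b2 : u (-zc i) * u (zc j) * u (-zc i) = u (zc j) * u (-zc i) * u (zc j) := by
      rw [← hn, nzsucc j i h]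
      exact hb _
    exact br4 b1 b2 (cself u hc i h3)
  · have b1 : u (zc i) * u (zc j) * u (zc i) = u (zc j) * u (zc i) * u (zc j) := by
      rw [zsucc i j h]
      exact hb _
    have b2 : u (-zc i) * u (zc j) * u (-zc i) = u (zc j) * u (-zc i) * u (zc j) := by
      rw [nzsucc i j h, hn]
      exact (hb _).symm
    exact br4 b1 b2 (cself u hc i h3)

include hc hb in
private theorem guC_alt (i j : Fin (k + 3)) :
    altProd (guC u i) (guC u j) (typeCC k i j) = altProd (guC u j) (guC u i) (typeCC k i j) := by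
  have h1 : typeCC k i j = if (i : ℕ) = j then 1
    else if (i : ℕ) + 1 = j ∨ (j : ℕ) + 1 = i then
      (if (i : ℕ) = 0 ∨ (j : ℕ) = 0 ∨ (i : ℕ) = k + 2 ∨ (j : ℕ) = k + 2 then 4 else 3) else 2 := rfl
  rw [h1]
  have hi := i.is_lt
  have hj := j.is_lt
  by_cases h2 : (i : ℕ) = j
  · rw [Fin.ext h2]
  · rw [if_neg h2]
    by_cases h3 : (i : ℕ) + 1 = j ∨ (j : ℕ) + 1 = i
    · rw [if_pos h3]
      by_cases h4 : (i : ℕ) = 0 ∨ (j : ℕ) = 0 ∨ (i : ℕ) = k + 2 ∨ (j : ℕ) = k + 2
      · rw [if_pos h4]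
        change guC u i * (guC u j * (guC u i * (guC u j * 1))) =
          guC u j * (guC u i * (guC u j * (guC u i * 1)))
        by_cases h5 : (j : ℕ) = 0 ∨ (j : ℕ) = k + 2
        · exact altC4 u hc hb i j h3.symm (by omega) h5
        · exact (altC4 u hc hb j i h3 h5 (by omega)).symm
      · rw [if_neg h4]
        change guC u i * (guC u j * (guC u i * 1)) = guC u j * (guC u i * (guC u j * 1))
        rcases h3 with h3 | h3
        · exact altC3 u hc hb i j h3 (by omega) (by omega)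
        · exact (altC3 u hc hb j i h3 (by omega) (by omega)).symm
    · rw [if_neg h3]
      change guC u i * (guC u j * 1) = guC u j * (guC u i * 1)
      exact altC2 u hc i j h2 (fun e => h3 (Or.inr e)) fun e => h3 (Or.inl e)

end

theorem exists_homC (k : ℕ) : ∃ ρ : ArtinGroup (typeCC k) →* (Module.End ℚ Sq)ˣ,
    ∀ (i : Fin (k + 3)) (n : ℤ),
    ((ρ ((PresentedGroup.of i : ArtinGroup (typeCC k)) ^ n) : (Module.End ℚ Sq)ˣ) : Module.End ℚ Sq) =
      gzC i n := by
  obtain ⟨ρA, hA⟩ := exists_homZ (2 * k + 1)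
  let u : ZMod (2 * k + 1 + 3) → (Module.End ℚ Sq)ˣ := fun x => ρA (PresentedGroup.of x)
  have hu : ∀ (x : ZMod (2 * k + 1 + 3)) (n : ℤ),
      ((u x ^ n : (Module.End ℚ Sq)ˣ) : Module.End ℚ Sq) = gz x n := by
    intro x n
    rw [← hA x n, map_zpow]
  have hu1 : ∀ x : ZMod (2 * k + 1 + 3), ((u x : (Module.End ℚ Sq)ˣ) : Module.End ℚ Sq) = gz x 1 := by
    intro x
    have h := hu x 1
    rwa [zpow_one, Int.cast_one] at h
  have hc : ∀ x y, x ≠ y → y ≠ x + 1 → x ≠ y + 1 → u x * u y = u y * u x := by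
    intro x y h1 h2 h3
    refine Units.ext ?_
    rw [Units.val_mul, Units.val_mul, hu1, hu1]
    exact gz_comm x y h1 h2 h3
  have hb : ∀ x, u x * u (x + 1) * u x = u (x + 1) * u x * u (x + 1) := by
    intro x
    refine Units.ext ?_
    rw [Units.val_mul, Units.val_mul, Units.val_mul, Units.val_mul, hu1, hu1]
    exact gz_braid x
  have h1 : ∀ r ∈ artinRels (typeCC k), FreeGroup.lift (guC u) r = 1 := by
    rintro r ⟨i, j, _, rfl⟩
    rw [map_mul, map_inv, altProd_map, altProd_map, FreeGroup.lift_apply_of, FreeGroup.lift_apply_of,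
      guC_alt u hc hb, mul_inv_cancel]
  refine ⟨PresentedGroup.toGroup h1, fun i n => ?_⟩
  rw [map_zpow, PresentedGroup.toGroup.of]
  by_cases h : (i : ℕ) = 0 ∨ (i : ℕ) = k + 2
  · rw [guC, if_pos h, hu, gzC, if_pos h]
  · have h2 : Commute (u (zc i)) (u (-zc i)) := cself u hc i h
    rw [guC, if_neg h, h2.mul_zpow, Units.val_mul, hu, hu, gzC, if_neg h]

end Pool.Agent.Lib.MP_f146a9_al.DV
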