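import Pool.Agent.Lib.MP_f146a9_al.DVC.PermFC

/-! MP_f146a9_al. Length and the action on the integers, affine types C~. -/

namespace Pool.Agent.Lib.MP_f146a9_al.DV

private theorem PLC_cls {k : ℕ} (u v : ℤ) (h1 : v - u < 2 * (2 * (k : ℤ) + 4))
    (h2 : -(2 * (2 * (k : ℤ) + 4)) < v - u) :
    ((u : ZMod (2 * k + 1 + 3)) = (v : ZMod (2 * k + 1 + 3))) ↔
      v = u ∨ v = u + (2 * (k : ℤ) + 4) ∨ v = u - (2 * (k : ℤ) + 4) := by
  rw [z_eq_iff]
  have hk : (0 : ℤ) ≤ k := Int.natCast_nonneg k
  constructor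
  · rintro ⟨q, hq⟩
    have hq1 : q < 2 := by
      by_contra hcon
      have h3 : 2 * (2 * (k : ℤ) + 4) ≤ q * (2 * (k : ℤ) + 4) :=
        mul_le_mul_of_nonneg_right (not_lt.mp hcon) (by linarith)
      linarith
    have hq2 : -2 < q := by
      by_contra hcon
      have h3 : q * (2 * (k : ℤ) + 4) ≤ (-2) * (2 * (k : ℤ) + 4) :=
        mul_le_mul_of_nonneg_right (not_lt.mp hcon) (by linarith)
      linarith
    have hq3 : q = -1 ∨ q = 0 ∨ q = 1 := by omega
    rcases hq3 with h | h | h <;> subst h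
    · right; right; linarith
    · left; linarith
    · right; left; linarith
  · rintro (h | h | h)
    · exact ⟨0, by linarith⟩
    · exact ⟨1, by linarith⟩
    · exact ⟨-1, by linarith⟩

private theorem PLC_sz {k : ℕ} (x y : ℤ) (h1 : x - y < 4 * (k : ℤ) + 7) (h2 : -(4 * (k : ℤ) + 7) < x - y) :
    sz (n := 2 * k + 1) ((y : ℤ) : ZMod (2 * k + 1 + 3)) x =
      if x = y ∨ x = y + (2 * (k : ℤ) + 4) ∨ x = y - (2 * (k : ℤ) + 4) then x + 1
      else if x = y + 1 ∨ x = y + 1 + (2 * (k : ℤ) + 4) ∨ x = y + 1 - (2 * (k : ℤ) + 4) then x - 1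
      else x := by
  change szf ((y : ℤ) : ZMod (2 * k + 1 + 3)) x = _
  unfold szf
  have e1 : ((x : ZMod (2 * k + 1 + 3)) = (y : ZMod (2 * k + 1 + 3))) ↔
      (x = y ∨ x = y + (2 * (k : ℤ) + 4) ∨ x = y - (2 * (k : ℤ) + 4)) := by
    rw [PLC_cls x y (by linarith) (by linarith)]
    constructor <;> rintro (h | h | h)
    · left; linarith
    · right; right; linarith
    · right; left; linarith
    · left; linarith
    · right; right; linarith
    · right; left; linarith
  have e2 : ((x : ZMod (2 * k + 1 + 3)) = (y : ZMod (2 * k + 1 + 3)) + 1) ↔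
      (x = y + 1 ∨ x = y + 1 + (2 * (k : ℤ) + 4) ∨ x = y + 1 - (2 * (k : ℤ) + 4)) := by
    have e3 : (y : ZMod (2 * k + 1 + 3)) + 1 = ((y + 1 : ℤ) : ZMod (2 * k + 1 + 3)) := by push_cast; rfl
    rw [e3, PLC_cls x (y + 1) (by linarith) (by linarith)]
    constructor <;> rintro (h | h | h)
    · left; linarith
    · right; right; linarith
    · right; left; linarith
    · left; linarith
    · right; right; linarith
    · right; left; linarith
  simp only [e1, e2]

private theorem PLC_val {k : ℕ} (j : Fin (k + 3)) (x : ℤ) (h1 : -1 ≤ x) (h2 : x ≤ (k : ℤ) + 4) :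
    szC j x = if x = (j : ℕ) ∨ x = -((j : ℕ) : ℤ) ∨ x = 2 * (k : ℤ) + 4 - (j : ℕ) then x + 1
      else if x = (j : ℕ) + 1 ∨ x = -((j : ℕ) : ℤ) + 1 ∨ x = 2 * (k : ℤ) + 4 - (j : ℕ) + 1 then x - 1
      else x := by
  have hj := j.2
  have hz : zc j = (((j : ℕ) : ℤ) : ZMod (2 * k + 1 + 3)) := (zc_coe j).symm
  have hz' : -zc j = ((-((j : ℕ) : ℤ) : ℤ) : ZMod (2 * k + 1 + 3)) := by
    rw [hz]; push_cast; rfl
  unfold szC
  by_cases ho : (j : ℕ) = 0 ∨ (j : ℕ) = k + 2
  · rw [if_pos ho, hz, PLC_sz x _ (by omega) (by omega)]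
    split_ifs <;> omega
  · rw [if_neg ho, Equiv.Perm.mul_apply, hz', hz]
    rw [PLC_sz x (-((j : ℕ) : ℤ)) (by omega) (by omega)]
    by_cases c1 : x = -((j : ℕ) : ℤ) ∨ x = -((j : ℕ) : ℤ) + (2 * (k : ℤ) + 4) ∨
        x = -((j : ℕ) : ℤ) - (2 * (k : ℤ) + 4)
    · rw [if_pos c1, PLC_sz (x + 1) _ (by omega) (by omega)]
      split_ifs <;> omega
    · rw [if_neg c1]
      by_cases c2 : x = -((j : ℕ) : ℤ) + 1 ∨ x = -((j : ℕ) : ℤ) + 1 + (2 * (k : ℤ) + 4) ∨
          x = -((j : ℕ) : ℤ) + 1 - (2 * (k : ℤ) + 4)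
      · rw [if_pos c2, PLC_sz (x - 1) _ (by omega) (by omega)]
        split_ifs <;> omega
      · rw [if_neg c2, PLC_sz x _ (by omega) (by omega)]
        split_ifs <;> omega

private theorem PLC_fin {k : ℕ} (g : ℤ → ℤ) (hs : ∀ x, g (1 - x) = 1 - g x)
    (hp : ∀ x, g (x + (2 * (k : ℤ) + 4)) = g x + (2 * (k : ℤ) + 4)) (i j : Fin (k + 3))
    (hadj : (j : ℕ) + 1 = i ∨ (i : ℕ) + 1 = j)
    (A1 : g (i : ℕ) < g ((i : ℕ) + 1)) (A2 : g (j : ℕ) < g ((j : ℕ) + 1)) :
    g (szC j (i : ℕ)) < g (szC j ((i : ℕ) + 1)) ∧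
    g (szC i (szC j (i : ℕ))) < g (szC i (szC j ((i : ℕ) + 1))) ∧
    ((i : ℕ) = 0 ∨ (j : ℕ) = 0 ∨ (i : ℕ) = k + 2 ∨ (j : ℕ) = k + 2 →
      g (szC j (szC i (szC j (i : ℕ)))) < g (szC j (szC i (szC j ((i : ℕ) + 1))))) := by
  have hi := i.2
  have hj := j.2
  rcases hadj with h | h
  · -- j + 1 = i
    have e1 : ((i : ℕ) : ℤ) = (j : ℕ) + 1 := by omega
    have a1 : szC j ((i : ℕ) : ℤ) = (j : ℕ) := by
      rw [PLC_val j _ (by omega) (by omega)]; split_ifs <;> omega
    by_cases him : (i : ℕ) = k + 2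
    · have a2 : szC j (((i : ℕ) : ℤ) + 1) = (k : ℤ) + 4 := by
        rw [PLC_val j _ (by omega) (by omega)]; split_ifs <;> omega
      have a3 : szC i ((j : ℕ) : ℤ) = (j : ℕ) := by
        rw [PLC_val i _ (by omega) (by omega)]; split_ifs <;> omega
      have a4 : szC i ((k : ℤ) + 4) = (k : ℤ) + 4 := by
        rw [PLC_val i _ (by omega) (by omega)]; split_ifs <;> omega
      have a5 : szC j ((j : ℕ) : ℤ) = (i : ℕ) := by
        rw [PLC_val j _ (by omega) (by omega)]; split_ifs <;> omega
      have a6 : szC j ((k : ℤ) + 4) = ((i : ℕ) : ℤ) + 1 := by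
        rw [PLC_val j _ (by omega) (by omega)]; split_ifs <;> omega
      have b1 : g ((k : ℤ) + 4) = 1 - g (j : ℕ) + (2 * (k : ℤ) + 4) := by
        rw [← hs, ← hp]; congr 1; omega
      have b2 : g (((i : ℕ) : ℤ) + 1) = 1 - g ((j : ℕ) + 1) + (2 * (k : ℤ) + 4) := by
        rw [← hs, ← hp]; congr 1; omega
      rw [a1, a2, a3, a4, a5, a6]
      have A1' := A1
      rw [e1] at A1'
      rw [e1] at b2
      refine ⟨by omega, by omega, fun _ => A1⟩
    · by_cases hj0 : (j : ℕ) = 0
      · have a2 : szC j (((i : ℕ) : ℤ) + 1) = 2 := by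
          rw [PLC_val j _ (by omega) (by omega)]; split_ifs <;> omega
        have a3 : szC i ((j : ℕ) : ℤ) = -1 := by
          rw [PLC_val i _ (by omega) (by omega)]; split_ifs <;> omega
        have a4 : szC i 2 = 1 := by
          rw [PLC_val i _ (by omega) (by omega)]; split_ifs <;> omega
        have a5' : ∀ x : ℤ, x = -1 → szC j x = x := by
          intro x hx
          rw [PLC_val j x (by omega) (by omega)]; split_ifs <;> omega
        have a5 : szC j (-1) = -1 := a5' (-1) rfl
        have a6 : szC j 1 = 0 := by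
          rw [PLC_val j _ (by omega) (by omega)]; split_ifs <;> omega
        have i1 : ((i : ℕ) : ℤ) = 1 := by omega
        have j0 : ((j : ℕ) : ℤ) = 0 := by omega
        have b1 : g (-1) = 1 - g 2 := by rw [← hs]; rfl
        have b2 : g 0 = 1 - g 1 := by rw [← hs]; rfl
        rw [a1, a2, a3, a4, a5, a6]
        rw [i1] at A1
        rw [j0] at A2
        rw [j0]
        have A1' : g 1 < g 2 := A1
        have A2' : g 0 < g 1 := A2
        refine ⟨by omega, by omega, fun _ => by omega⟩
      · have a2 : szC j (((i : ℕ) : ℤ) + 1) = ((i : ℕ) : ℤ) + 1 := by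
          rw [PLC_val j _ (by omega) (by omega)]; split_ifs <;> omega
        have a3 : szC i ((j : ℕ) : ℤ) = (j : ℕ) := by
          rw [PLC_val i _ (by omega) (by omega)]; split_ifs <;> omega
        have a4 : szC i (((i : ℕ) : ℤ) + 1) = (j : ℕ) + 1 := by
          rw [PLC_val i _ (by omega) (by omega)]; split_ifs <;> omega
        rw [a1, a2, a3, a4]
        have A1' := A1
        rw [e1] at A1'
        rw [e1]
        exact ⟨A2.trans A1', A2, fun h' => by omega⟩
  · -- i + 1 = j
    have e1 : ((j : ℕ) : ℤ) = (i : ℕ) + 1 := by omega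
    by_cases hjm : (j : ℕ) = k + 2
    · have a1 : szC j ((i : ℕ) : ℤ) = (i : ℕ) := by
        rw [PLC_val j _ (by omega) (by omega)]; split_ifs <;> omega
      have a2 : szC j (((i : ℕ) : ℤ) + 1) = (j : ℕ) + 1 := by
        rw [PLC_val j _ (by omega) (by omega)]; split_ifs <;> omega
      have a3 : szC i ((i : ℕ) : ℤ) = (j : ℕ) := by
        rw [PLC_val i _ (by omega) (by omega)]; split_ifs <;> omega
      have a4 : szC i (((j : ℕ) : ℤ) + 1) = (k : ℤ) + 4 := by
        rw [PLC_val i _ (by omega) (by omega)]; split_ifs <;> omega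
      have a5 : szC j ((j : ℕ) : ℤ) = (j : ℕ) + 1 := by
        rw [PLC_val j _ (by omega) (by omega)]; split_ifs <;> omega
      have a6 : szC j ((k : ℤ) + 4) = (k : ℤ) + 4 := by
        rw [PLC_val j _ (by omega) (by omega)]; split_ifs <;> omega
      have b1 : g ((k : ℤ) + 4) = 1 - g (i : ℕ) + (2 * (k : ℤ) + 4) := by
        rw [← hs, ← hp]; congr 1; omega
      have b2 : g (((j : ℕ) : ℤ) + 1) = 1 - g (j : ℕ) + (2 * (k : ℤ) + 4) := by
        rw [← hs, ← hp]; congr 1; omega
      rw [a1, a2, a3, a4, a5, a6]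
      have A1' : g (i : ℕ) < g (j : ℕ) := by rw [e1]; exact A1
      exact ⟨A1'.trans A2, by omega, fun _ => by omega⟩
    · by_cases hi0 : (i : ℕ) = 0
      · have i0 : ((i : ℕ) : ℤ) = 0 := by omega
        have j1 : ((j : ℕ) : ℤ) = 1 := by omega
        have a1 : szC j ((i : ℕ) : ℤ) = -1 := by
          rw [PLC_val j _ (by omega) (by omega)]; split_ifs <;> omega
        have a2 : szC j (((i : ℕ) : ℤ) + 1) = 2 := by
          rw [PLC_val j _ (by omega) (by omega)]; split_ifs <;> omega
        have a3' : ∀ x : ℤ, x = -1 → szC i x = x := by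
          intro x hx
          rw [PLC_val i x (by omega) (by omega)]; split_ifs <;> omega
        have a3 : szC i (-1) = -1 := a3' (-1) rfl
        have a4 : szC i 2 = 2 := by
          rw [PLC_val i _ (by omega) (by omega)]; split_ifs <;> omega
        have a5' : ∀ x : ℤ, x = -1 → szC j x = x + 1 := by
          intro x hx
          rw [PLC_val j x (by omega) (by omega)]; split_ifs <;> omega
        have a5 : szC j (-1) = 0 := a5' (-1) rfl
        have a6 : szC j 2 = 1 := by
          rw [PLC_val j _ (by omega) (by omega)]; split_ifs <;> omega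
        have b1 : g (-1) = 1 - g 2 := by rw [← hs]; rfl
        have b2 : g 0 = 1 - g 1 := by rw [← hs]; rfl
        rw [a1, a2, a3, a4, a5, a6]
        rw [i0] at A1
        rw [j1] at A2
        have A1' : g 0 < g 1 := A1
        have A2' : g 1 < g 2 := A2
        refine ⟨by omega, by omega, fun _ => by omega⟩
      · have a1 : szC j ((i : ℕ) : ℤ) = (i : ℕ) := by
          rw [PLC_val j _ (by omega) (by omega)]; split_ifs <;> omega
        have a2 : szC j (((i : ℕ) : ℤ) + 1) = (j : ℕ) + 1 := by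
          rw [PLC_val j _ (by omega) (by omega)]; split_ifs <;> omega
        have a3 : szC i ((i : ℕ) : ℤ) = (j : ℕ) := by
          rw [PLC_val i _ (by omega) (by omega)]; split_ifs <;> omega
        have a4 : szC i (((j : ℕ) : ℤ) + 1) = (j : ℕ) + 1 := by
          rw [PLC_val i _ (by omega) (by omega)]; split_ifs <;> omega
        rw [a1, a2, a3, a4]
        have A1' : g (i : ℕ) < g (j : ℕ) := by rw [e1]; exact A1
        exact ⟨A1'.trans A2, A2, fun h' => by omega⟩

private theorem PLC_M {k : ℕ} (i j : Fin (k + 3)) (hij : (i : ℕ) ≠ j) :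
    typeCC k i j = if (i : ℕ) + 1 = j ∨ (j : ℕ) + 1 = i then
      (if (i : ℕ) = 0 ∨ (j : ℕ) = 0 ∨ (i : ℕ) = k + 2 ∨ (j : ℕ) = k + 2 then 4 else 3) else 2 := by
  have h : typeCC k i j = if (i : ℕ) = j then 1 else if (i : ℕ) + 1 = j ∨ (j : ℕ) + 1 = i then
      (if (i : ℕ) = 0 ∨ (j : ℕ) = 0 ∨ (i : ℕ) = k + 2 ∨ (j : ℕ) = k + 2 then 4 else 3) else 2 := rfl
  rw [h, if_neg hij]

private theorem PLC_comm {k : ℕ} {W : Type*} [Group W] (cs : CoxeterSystem (typeCC k) W)
    {i j : Fin (k + 3)} (hij : (i : ℕ) ≠ j) (h1 : (j : ℕ) + 1 ≠ i) (h2 : (i : ℕ) + 1 ≠ j) :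
    cs.simple i * cs.simple j = cs.simple j * cs.simple i := by
  have hM := PLC_M i j hij
  rw [if_neg (by omega)] at hM
  have h := cs.simple_mul_simple_pow i j
  rw [hM, pow_two] at h
  have h3 := eq_inv_of_mul_eq_one_left h
  rwa [mul_inv_rev, cs.inv_simple, cs.inv_simple] at h3

private theorem PLC_braid3 {k : ℕ} {W : Type*} [Group W] (cs : CoxeterSystem (typeCC k) W)
    {i j : Fin (k + 3)} (hij : (j : ℕ) + 1 = i ∨ (i : ℕ) + 1 = j)
    (hm : ¬ ((i : ℕ) = 0 ∨ (j : ℕ) = 0 ∨ (i : ℕ) = k + 2 ∨ (j : ℕ) = k + 2)) :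
    cs.simple i * cs.simple j * cs.simple i = cs.simple j * cs.simple i * cs.simple j := by
  have hM := PLC_M i j (by omega)
  rw [if_pos (by omega), if_neg hm] at hM
  have h := cs.simple_mul_simple_pow i j
  rw [hM, pow_succ, pow_two] at h
  have h3 := eq_inv_of_mul_eq_one_left h
  rw [mul_inv_rev, cs.inv_simple, cs.inv_simple] at h3
  have h4 : cs.simple i * cs.simple j * cs.simple i =
      cs.simple i * cs.simple j * (cs.simple i * cs.simple j) * cs.simple j := by
    rw [mul_assoc (cs.simple i * cs.simple j) (cs.simple i * cs.simple j) (cs.simple j),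
      mul_assoc (cs.simple i) (cs.simple j) (cs.simple j), cs.simple_mul_simple_self, mul_one]
  rw [h4, h3]

private theorem PLC_braid4 {k : ℕ} {W : Type*} [Group W] (cs : CoxeterSystem (typeCC k) W)
    {i j : Fin (k + 3)} (hij : (j : ℕ) + 1 = i ∨ (i : ℕ) + 1 = j)
    (hm : (i : ℕ) = 0 ∨ (j : ℕ) = 0 ∨ (i : ℕ) = k + 2 ∨ (j : ℕ) = k + 2) :
    cs.simple i * cs.simple j * (cs.simple i * cs.simple j) =
      cs.simple j * cs.simple i * (cs.simple j * cs.simple i) := by
  have hM := PLC_M i j (by omega)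
  rw [if_pos (by omega), if_pos hm] at hM
  have h := cs.simple_mul_simple_pow i j
  rw [hM, show (4 : ℕ) = 2 + 2 from rfl, pow_add] at h
  have h3 := eq_inv_of_mul_eq_one_left h
  rw [pow_two, mul_inv_rev, mul_inv_rev, cs.inv_simple, cs.inv_simple] at h3
  exact h3

private theorem PLC_inv {k : ℕ} {W : Type*} [Group W] (cs : CoxeterSystem (typeCC k) W)
    (f : W →* Equiv.Perm ℤ) (hf : ∀ i : Fin (k + 3), f (cs.simple i) = szC i)
    (j : Fin (k + 3)) (w : W) (x : ℤ) :
    (f (cs.simple j * w))⁻¹ x = (f w)⁻¹ (szC j x) := by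
  have h : (szC j : Equiv.Perm ℤ)⁻¹ = szC j := by
    rw [← hf, ← map_inv, cs.inv_simple]
  rw [map_mul, mul_inv_rev, Equiv.Perm.mul_apply, hf, h]

private theorem PLC_sym {k : ℕ} {W : Type*} [Group W] (cs : CoxeterSystem (typeCC k) W)
    (f : W →* Equiv.Perm ℤ) (hf : ∀ i : Fin (k + 3), f (cs.simple i) = szC i) (w : W) (x : ℤ) :
    (f w)⁻¹ (1 - x) = 1 - (f w)⁻¹ x := by
  rw [← map_inv]
  exact symC cs f hf w⁻¹ x

private theorem PLC_per {k : ℕ} {W : Type*} [Group W] (cs : CoxeterSystem (typeCC k) W)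
    (f : W →* Equiv.Perm ℤ) (hf : ∀ i : Fin (k + 3), f (cs.simple i) = szC i) (w : W) (x : ℤ) :
    (f w)⁻¹ (x + (2 * (k : ℤ) + 4)) = (f w)⁻¹ x + (2 * (k : ℤ) + 4) := by
  rw [← map_inv]
  have h := perC cs f hf w⁻¹ x
  have e : (((2 * k + 1 : ℕ) : ℤ) + 3) = 2 * (k : ℤ) + 4 := by push_cast; ring
  rwa [e] at h

private theorem PLC_A {k : ℕ} {W : Type*} [Group W] (cs : CoxeterSystem (typeCC k) W)
    (f : W →* Equiv.Perm ℤ) (hf : ∀ i : Fin (k + 3), f (cs.simple i) = szC i)
    (N : ℕ) : ∀ (w : W) (i : Fin (k + 3)), cs.length w = N → cs.length w < cs.length (cs.simple i * w) →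
    (f w)⁻¹ ((i : ℕ) : ℤ) < (f w)⁻¹ (((i : ℕ) : ℤ) + 1) := by
  induction N using Nat.strong_induction_on with
  | _ N ih =>
    intro w i hN hi
    by_cases h1 : w = 1
    · rw [h1, map_one, inv_one]
      exact lt_add_one ((i : ℕ) : ℤ)
    obtain ⟨j, hj⟩ := cs.exists_leftDescent_of_ne_one h1
    have hj' : cs.length (cs.simple j * w) < cs.length w := hj
    have hij : i ≠ j := by
      rintro rfl
      omega
    have hijv : (i : ℕ) ≠ j := fun e => hij (Fin.ext e)
    have hi2 := i.2
    have hj2 := j.2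
    obtain ⟨w', hw'⟩ : ∃ w', w' = cs.simple j * w := ⟨_, rfl⟩
    have hw : w = cs.simple j * w' := by rw [hw', cs.simple_mul_simple_cancel_left]
    have hl' : cs.length w' + 1 = cs.length w := by
      rw [hw']
      rcases cs.length_simple_mul w j with h | h <;> omega
    have hjw' : cs.length w' < cs.length (cs.simple j * w') := by rw [← hw]; omega
    have A2 := ih (cs.length w') (by omega) w' j rfl hjw'
    have e0 : ∀ x, (f w)⁻¹ x = (f w')⁻¹ (szC j x) := by
      intro x
      rw [hw]
      exact PLC_inv cs f hf j w' x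
    rw [e0, e0]
    by_cases hc : cs.length w' < cs.length (cs.simple i * w')
    · have A1 := ih (cs.length w') (by omega) w' i rfl hc
      by_cases nb : (j : ℕ) + 1 = i ∨ (i : ℕ) + 1 = j
      · exact (PLC_fin (fun x => (f w')⁻¹ x) (PLC_sym cs f hf w') (PLC_per cs f hf w') i j nb A1 A2).1
      · have a1 : szC j ((i : ℕ) : ℤ) = (i : ℕ) := by
          rw [PLC_val j _ (by omega) (by omega)]; split_ifs <;> omega
        have a2 : szC j (((i : ℕ) : ℤ) + 1) = ((i : ℕ) : ℤ) + 1 := by
          rw [PLC_val j _ (by omega) (by omega)]; split_ifs <;> omega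
        rw [a1, a2]
        exact A1
    · obtain ⟨v, hv⟩ : ∃ v, v = cs.simple i * w' := ⟨_, rfl⟩
      have hw'v : w' = cs.simple i * v := by rw [hv, cs.simple_mul_simple_cancel_left]
      have hlv : cs.length v + 1 = cs.length w' := by
        rw [hv]
        rcases cs.length_simple_mul w' i with h | h <;> omega
      by_cases nb : (j : ℕ) + 1 = i ∨ (i : ℕ) + 1 = j
      · have hiv : cs.length v < cs.length (cs.simple i * v) := by rw [← hw'v]; omega
        have B1 := ih (cs.length v) (by omega) v i rfl hiv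
        have e1 : ∀ x, (f w')⁻¹ x = (f v)⁻¹ (szC i x) := by
          intro x
          rw [hw'v]
          exact PLC_inv cs f hf i v x
        by_cases hjv : cs.length v < cs.length (cs.simple j * v)
        · have B2 := ih (cs.length v) (by omega) v j rfl hjv
          rw [e1, e1]
          exact (PLC_fin (fun x => (f v)⁻¹ x) (PLC_sym cs f hf v) (PLC_per cs f hf v) i j nb B1 B2).2.1
        · obtain ⟨t, ht⟩ : ∃ t, t = cs.simple j * v := ⟨_, rfl⟩
          have hvt : v = cs.simple j * t := by rw [ht, cs.simple_mul_simple_cancel_left]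
          have hlt : cs.length t + 1 = cs.length v := by
            rw [ht]
            rcases cs.length_simple_mul v j with h | h <;> omega
          by_cases hm : (i : ℕ) = 0 ∨ (j : ℕ) = 0 ∨ (i : ℕ) = k + 2 ∨ (j : ℕ) = k + 2
          · have hjt : cs.length t < cs.length (cs.simple j * t) := by rw [← hvt]; omega
            have C2 := ih (cs.length t) (by omega) t j rfl hjt
            have hit : cs.length t < cs.length (cs.simple i * t) := by
              by_contra hcon
              obtain ⟨r, hr⟩ : ∃ r, r = cs.simple i * t := ⟨_, rfl⟩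
              have htr : t = cs.simple i * r := by rw [hr, cs.simple_mul_simple_cancel_left]
              have hlr : cs.length r + 1 = cs.length t := by
                rw [hr]
                rcases cs.length_simple_mul t i with h | h <;> omega
              have h3 : cs.simple i * w = cs.simple j * (cs.simple i * (cs.simple j * r)) := by
                calc cs.simple i * w = cs.simple i * cs.simple j * (cs.simple i * cs.simple j) *
                      (cs.simple i * r) := by rw [hw, hw'v, hvt, htr]; simp only [mul_assoc]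
                  _ = cs.simple j * cs.simple i * (cs.simple j * cs.simple i) * (cs.simple i * r) := by
                      rw [PLC_braid4 cs nb hm]
                  _ = cs.simple j * (cs.simple i * (cs.simple j * (cs.simple i * (cs.simple i * r)))) := by
                      simp only [mul_assoc]
                  _ = _ := by rw [cs.simple_mul_simple_cancel_left]
              have h4 : cs.length (cs.simple i * w) ≤ cs.length r + 3 := by
                rw [h3]
                rcases cs.length_simple_mul (cs.simple i * (cs.simple j * r)) j with h | h <;>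
                  rcases cs.length_simple_mul (cs.simple j * r) i with h' | h' <;>
                  rcases cs.length_simple_mul r j with h'' | h'' <;> omega
              omega
            have C1 := ih (cs.length t) (by omega) t i rfl hit
            have e2 : ∀ x, (f v)⁻¹ x = (f t)⁻¹ (szC j x) := by
              intro x
              rw [hvt]
              exact PLC_inv cs f hf j t x
            rw [e1, e1, e2, e2]
            exact (PLC_fin (fun x => (f t)⁻¹ x) (PLC_sym cs f hf t) (PLC_per cs f hf t) i j nb C1 C2).2.2 hm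
          · exfalso
            have h3 : cs.simple i * w = cs.simple j * (cs.simple i * t) := by
              calc cs.simple i * w = cs.simple i * cs.simple j * cs.simple i * (cs.simple j * t) := by
                    rw [hw, hw'v, hvt]; simp only [mul_assoc]
                _ = cs.simple j * cs.simple i * cs.simple j * (cs.simple j * t) := by
                    rw [PLC_braid3 cs nb hm]
                _ = cs.simple j * (cs.simple i * (cs.simple j * (cs.simple j * t))) := by
                    simp only [mul_assoc]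
                _ = _ := by rw [cs.simple_mul_simple_cancel_left]
            have h4 : cs.length (cs.simple i * w) ≤ cs.length t + 2 := by
              rw [h3]
              rcases cs.length_simple_mul (cs.simple i * t) j with h | h <;>
                rcases cs.length_simple_mul t i with h' | h' <;> omega
            omega
      · exfalso
        push Not at nb
        have h3 : cs.simple i * w = cs.simple j * v := by
          calc cs.simple i * w = cs.simple i * cs.simple j * (cs.simple i * v) := by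
                rw [hw, hw'v]; simp only [mul_assoc]
            _ = cs.simple j * cs.simple i * (cs.simple i * v) := by rw [PLC_comm cs hijv nb.1 nb.2]
            _ = cs.simple j * (cs.simple i * (cs.simple i * v)) := by rw [mul_assoc]
            _ = _ := by rw [cs.simple_mul_simple_cancel_left]
        have h4 : cs.length (cs.simple i * w) ≤ cs.length v + 1 := by
          rw [h3]
          rcases cs.length_simple_mul v j with h | h <;> omega
        omega

private theorem PLC_len {k : ℕ} {W : Type*} [Group W] (cs : CoxeterSystem (typeCC k) W)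
    (f : W →* Equiv.Perm ℤ) (hf : ∀ i : Fin (k + 3), f (cs.simple i) = szC i) (i : Fin (k + 3)) (w : W) :
    cs.length w < cs.length (cs.simple i * w) ↔
      (f w)⁻¹ ((i : ℕ) : ℤ) < (f w)⁻¹ (((i : ℕ) : ℤ) + 1) := by
  have hi2 := i.2
  refine ⟨PLC_A cs f hf _ w i rfl, fun h => ?_⟩
  by_contra hcon
  have h1 : cs.length (cs.simple i * w) < cs.length (cs.simple i * (cs.simple i * w)) := by
    rw [cs.simple_mul_simple_cancel_left]
    rcases cs.length_simple_mul w i with h' | h' <;> omega
  have h2 := PLC_A cs f hf _ _ i rfl h1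
  have a1 : szC i ((i : ℕ) : ℤ) = ((i : ℕ) : ℤ) + 1 := by
    rw [PLC_val i _ (by omega) (by omega)]; split_ifs <;> omega
  have a2 : szC i (((i : ℕ) : ℤ) + 1) = (i : ℕ) := by
    rw [PLC_val i _ (by omega) (by omega)]; split_ifs <;> omega
  rw [PLC_inv cs f hf, PLC_inv cs f hf, a1, a2] at h2
  exact lt_asymm h h2

private theorem PLC_mul (g : ℤ → ℤ) (P : ℤ) (hp : ∀ x, g (x + P) = g x + P) (q x : ℤ) :
    g (x + q * P) = g x + q * P := by
  induction q using Int.induction_on with
  | zero => simp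
  | succ n ih =>
    have e : x + ((n : ℤ) + 1) * P = (x + (n : ℤ) * P) + P := by ring
    rw [e, hp, ih]
    ring
  | pred n ih =>
    have e : x + (-(n : ℤ)) * P = (x + (-(n : ℤ) - 1) * P) + P := by ring
    rw [e, hp] at ih
    linarith

theorem permC_len {k : ℕ} {W : Type*} [Group W] (cs : CoxeterSystem (typeCC k) W) (f : W →* Equiv.Perm ℤ)
    (hf : ∀ i : Fin (k + 3), f (cs.simple i) = szC i) (i : Fin (k + 3)) (w : W) (a : ℤ)
    (ha : (a : ZMod (2 * k + 1 + 3)) = zc i) :
    cs.length w < cs.length (cs.simple i * w) ↔ (f w)⁻¹ a < (f w)⁻¹ (a + 1) := by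
  rw [PLC_len cs f hf i w]
  rw [← zc_coe i] at ha
  obtain ⟨q, hq⟩ := (z_eq_iff ((i : ℕ) : ℤ) a).mp ha.symm
  have h1 := PLC_mul (fun x => (f w)⁻¹ x) _ (PLC_per cs f hf w) q ((i : ℕ) : ℤ)
  have h2 := PLC_mul (fun x => (f w)⁻¹ x) _ (PLC_per cs f hf w) q (((i : ℕ) : ℤ) + 1)
  have e2 : a + 1 = ((i : ℕ) : ℤ) + 1 + q * (2 * (k : ℤ) + 4) := by rw [hq]; ring
  have h1' : (f w)⁻¹ (((i : ℕ) : ℤ) + q * (2 * (k : ℤ) + 4)) =
      (f w)⁻¹ ((i : ℕ) : ℤ) + q * (2 * (k : ℤ) + 4) := h1
  have h2' : (f w)⁻¹ (((i : ℕ) : ℤ) + 1 + q * (2 * (k : ℤ) + 4)) =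
      (f w)⁻¹ (((i : ℕ) : ℤ) + 1) + q * (2 * (k : ℤ) + 4) := h2
  rw [e2, h2', hq, h1']
  constructor
  · intro h
    linarith
  · intro h
    linarith

theorem permC_injective {k : ℕ} {W : Type*} [Group W] (cs : CoxeterSystem (typeCC k) W)
    (f : W →* Equiv.Perm ℤ) (hf : ∀ i : Fin (k + 3), f (cs.simple i) = szC i) : Function.Injective f := by
  rw [injective_iff_map_eq_one]
  intro w hw
  by_contra h1
  obtain ⟨j, hj⟩ := cs.exists_leftDescent_of_ne_one h1
  have hj' : cs.length (cs.simple j * w) < cs.length w := hj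
  have h2 : ¬ cs.length w < cs.length (cs.simple j * w) := by omega
  rw [PLC_len cs f hf, hw, inv_one] at h2
  exact h2 (lt_add_one ((j : ℕ) : ℤ))

end Pool.Agent.Lib.MP_f146a9_al.DV
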