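import Pool.Agent.Lib.MP_f146a9_al.DVC.Defs
import Pool.Agent.Lib.MP_f146a9_al.DVZ.UpZ
import Pool.Agent.Lib.MP_f146a9_al.DVZ.DownZ

/-!
MP_f146a9_al. Multiplication by a generator of type C~ moves a symmetric cell by at most one step.
-/

namespace Pool.Agent.Lib.MP_f146a9_al.DV

private theorem sc_inv {w : Equiv.Perm ℤ} (hs : SymZ w) (a : ℤ) : w⁻¹ (1 - a) = 1 - w⁻¹ a := by
  rw [Equiv.Perm.inv_eq_iff_eq, hs]
  congr 1
  exact (w.apply_symm_apply a).symm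

private theorem sc_off {n : ℕ} (i : ZMod (n + 3)) {a : ℤ} (h1 : (a : ZMod (n + 3)) ≠ i)
    (h2 : (a : ZMod (n + 3)) ≠ i + 1) : sz i a = a := by
  change szf i a = a
  unfold szf
  rw [if_neg h1, if_neg h2]

private theorem sc_on {n : ℕ} (i : ZMod (n + 3)) {a : ℤ} (h : (a : ZMod (n + 3)) = i) :
    sz i (a + 1) = a := by
  change szf i (a + 1) = a
  unfold szf
  have h2 : ((a + 1 : ℤ) : ZMod (n + 3)) = i + 1 := by push_cast; rw [h]
  rw [if_neg (by rw [h2]; exact zadd_ne i), if_pos h2]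
  ring

private theorem sc_inv_off {n : ℕ} (i : ZMod (n + 3)) (w : Equiv.Perm ℤ) {l : ℤ}
    (h1 : (l : ZMod (n + 3)) ≠ i) (h2 : (l : ZMod (n + 3)) ≠ i + 1) : (sz i * w)⁻¹ l = w⁻¹ l := by
  rw [mul_inv_rev, Equiv.Perm.mul_apply]
  congr 1
  change szf i l = l
  unfold szf
  rw [if_neg h1, if_neg h2]

private theorem sc_per {n : ℕ} (i : ZMod (n + 3)) (a : ℤ) :
    sz i (a + ((n : ℤ) + 3)) = sz i a + ((n : ℤ) + 3) := by
  change szf i (a + ((n : ℤ) + 3)) = szf i a + ((n : ℤ) + 3)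
  have hN : ((a + ((n : ℤ) + 3) : ℤ) : ZMod (n + 3)) = (a : ZMod (n + 3)) := by
    have h1 : ((n + 3 : ℕ) : ZMod (n + 3)) = 0 := ZMod.natCast_self (n + 3)
    push_cast at h1 ⊢
    rw [h1, add_zero]
  unfold szf
  rw [hN]
  split_ifs <;> ring

private theorem sc_four {k : ℕ} (i : Fin (k + 3)) (hi : ¬ ((i : ℕ) = 0 ∨ (i : ℕ) = k + 2)) :
    zc i ≠ -zc i ∧ zc i ≠ -zc i + 1 ∧ zc i + 1 ≠ -zc i := by
  have hlt := i.isLt
  push Not at hi
  have hi0 : (0 : ℤ) < ((i : ℕ) : ℤ) := by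
    have := hi.1
    omega
  have hi1 : ((i : ℕ) : ℤ) < (k : ℤ) + 2 := by
    have := hi.2
    omega
  refine ⟨fun h => ?_, fun h => ?_, fun h => ?_⟩
  · have h2 : ((((i : ℕ) : ℤ)) : ZMod (2 * k + 1 + 3)) = ((-((i : ℕ) : ℤ) : ℤ) : ZMod (2 * k + 1 + 3)) := by
      rw [Int.cast_neg, zc_coe]
      exact h
    obtain ⟨q, hq⟩ := (z_eq_iff _ _).1 h2
    rcases le_or_gt 0 q with h3 | h3
    · nlinarith
    · have h4 : q ≤ -1 := by omega
      nlinarith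
  · have h2 : ((((i : ℕ) : ℤ)) : ZMod (2 * k + 1 + 3)) = ((-((i : ℕ) : ℤ) + 1 : ℤ) : ZMod (2 * k + 1 + 3)) := by
      rw [Int.cast_add, Int.cast_neg, Int.cast_one, zc_coe]
      exact h
    obtain ⟨q, hq⟩ := (z_eq_iff _ _).1 h2
    obtain ⟨t, ht⟩ : ∃ t, t = q * ((k : ℤ) + 2) := ⟨_, rfl⟩
    have h3 : q * (2 * (k : ℤ) + 4) = 2 * t := by rw [ht]; ring
    rw [h3] at hq
    omega
  · have h2 : ((((i : ℕ) : ℤ) + 1 : ℤ) : ZMod (2 * k + 1 + 3)) = ((-((i : ℕ) : ℤ) : ℤ) : ZMod (2 * k + 1 + 3)) := by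
      rw [Int.cast_add, Int.cast_neg, Int.cast_one, zc_coe]
      exact h
    obtain ⟨q, hq⟩ := (z_eq_iff _ _).1 h2
    obtain ⟨t, ht⟩ : ∃ t, t = q * ((k : ℤ) + 2) := ⟨_, rfl⟩
    have h3 : q * (2 * (k : ℤ) + 4) = 2 * t := by rw [ht]; ring
    rw [h3] at hq
    omega

theorem upC {k : ℕ} (i : Fin (k + 3)) {r : ℚ} (hr : r ≠ 0) {x : Module.End ℚ Sq} {w : Equiv.Perm ℤ}
    (hx : GoodZ (2 * k + 1) x) (h : CellZ x w) (hs : SymZ w)
    (hw : ∀ l : ℤ, (l : ZMod (2 * k + 1 + 3)) = zc i → w⁻¹ l < w⁻¹ (l + 1)) :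
    CellZ (gzC i r * x) (szC i * w) := by
  by_cases hi : (i : ℕ) = 0 ∨ (i : ℕ) = k + 2
  · rw [gzC, szC, if_pos hi, if_pos hi]
    exact upZ (zc i) hr hx h hw
  · obtain ⟨f1, f2, f3⟩ := sc_four i hi
    rw [gzC, szC, if_neg hi, if_neg hi, mul_assoc, mul_assoc]
    have hneg : ∀ l : ℤ, (l : ZMod (2 * k + 1 + 3)) = -zc i → w⁻¹ l < w⁻¹ (l + 1) := by
      intro l hl
      have h1 := hw (-l) (by rw [Int.cast_neg, hl, neg_neg])
      have e1 : w⁻¹ (l + 1) = 1 - w⁻¹ (-l) := by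
        rw [← sc_inv hs]
        congr 1
        ring
      have e2 : w⁻¹ l = 1 - w⁻¹ (-l + 1) := by
        rw [← sc_inv hs]
        congr 1
        ring
      rw [e1, e2]
      linarith
    refine upZ (zc i) hr (good_mul (good_gz _ r) hx) (upZ (-zc i) hr hx h hneg) ?_
    intro l hl
    have hl1 : ((l + 1 : ℤ) : ZMod (2 * k + 1 + 3)) = zc i + 1 := by push_cast; rw [hl]
    rw [sc_inv_off _ _ (by rw [hl]; exact f1) (by rw [hl]; exact f2),
      sc_inv_off _ _ (by rw [hl1]; exact f3) (by rw [hl1]; exact fun h5 => f1 (add_right_cancel h5))]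
    exact hw l hl

theorem downC {k : ℕ} (i : Fin (k + 3)) (r : ℚ) {x : Module.End ℚ Sq} {w : Equiv.Perm ℤ}
    (hx : GoodZ (2 * k + 1) x) (h : CellZ x w) (hs : SymZ w)
    (hper : ∀ a : ℤ, w (a + (((2 * k + 1 : ℕ) : ℤ) + 3)) = w a + (((2 * k + 1 : ℕ) : ℤ) + 3))
    (hf : ∀ w₁ : Equiv.Perm ℤ, CellZ (gzC i r * x) w₁ → ∀ j, 1 ≤ w₁ j + w₁ (1 - j))
    (hw : ∀ l : ℤ, (l : ZMod (2 * k + 1 + 3)) = zc i → w⁻¹ (l + 1) < w⁻¹ l) :
    CellZ (gzC i r * x) w ∨ CellZ (gzC i r * x) (szC i * w) := by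
  by_cases hi : (i : ℕ) = 0 ∨ (i : ℕ) = k + 2
  · rw [gzC, szC, if_pos hi, if_pos hi]
    exact downZ (zc i) r hx h hper hw
  · obtain ⟨f1, f2, f3⟩ := sc_four i hi
    have e1 : gzC i r * x = gz (n := 2 * k + 1) (zc i) r * (gz (n := 2 * k + 1) (-zc i) r * x) := by
      rw [gzC, if_neg hi, mul_assoc]
    have e2 : szC i * w = sz (n := 2 * k + 1) (zc i) * (sz (n := 2 * k + 1) (-zc i) * w) := by
      rw [szC, if_neg hi, mul_assoc]
    rw [e1] at hf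
    rw [e1, e2]
    have hneg : ∀ l : ℤ, (l : ZMod (2 * k + 1 + 3)) = -zc i → w⁻¹ (l + 1) < w⁻¹ l := by
      intro l hl
      have h1 := hw (-l) (by rw [Int.cast_neg, hl, neg_neg])
      have e1 : w⁻¹ (l + 1) = 1 - w⁻¹ (-l) := by
        rw [← sc_inv hs]
        congr 1
        ring
      have e2 : w⁻¹ l = 1 - w⁻¹ (-l + 1) := by
        rw [← sc_inv hs]
        congr 1
        ring
      rw [e1, e2]
      linarith
    obtain ⟨a, ha⟩ : ∃ a : ℤ, a = ((i : ℕ) : ℤ) := ⟨_, rfl⟩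
    have haz : (a : ZMod (2 * k + 1 + 3)) = zc i := by rw [ha]; exact zc_coe i
    have hbz : ((-a : ℤ) : ZMod (2 * k + 1 + 3)) = -zc i := by rw [Int.cast_neg, haz]
    rcases downZ (-zc i) r hx h hper hneg with hA | hB
    · rcases downZ (zc i) r (good_mul (good_gz _ r) hx) hA hper hw with hC | hC
      · exact Or.inl hC
      · exfalso
        have h1 := hf _ hC (w⁻¹ (a + 1))
        have h2 : w (w⁻¹ (a + 1)) = a + 1 := w.apply_symm_apply _
        rw [Equiv.Perm.mul_apply, Equiv.Perm.mul_apply, hs, h2, sc_on _ haz] at h1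
        have h3 : (1 : ℤ) - (a + 1) = -a := by ring
        rw [h3, sc_off (zc i) (by rw [hbz]; exact f1.symm) (by rw [hbz]; exact f3.symm)] at h1
        omega
    · have hper' : ∀ a : ℤ, (sz (n := 2 * k + 1) (-zc i) * w) (a + (((2 * k + 1 : ℕ) : ℤ) + 3)) =
          (sz (n := 2 * k + 1) (-zc i) * w) a + (((2 * k + 1 : ℕ) : ℤ) + 3) := by
        intro a
        rw [Equiv.Perm.mul_apply, Equiv.Perm.mul_apply, hper, sc_per]
      have hw' : ∀ l : ℤ, (l : ZMod (2 * k + 1 + 3)) = zc i →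
          (sz (n := 2 * k + 1) (-zc i) * w)⁻¹ (l + 1) < (sz (n := 2 * k + 1) (-zc i) * w)⁻¹ l := by
        intro l hl
        have hl1 : ((l + 1 : ℤ) : ZMod (2 * k + 1 + 3)) = zc i + 1 := by push_cast; rw [hl]
        rw [sc_inv_off (-zc i) w (l := l) (by rw [hl]; exact f1) (by rw [hl]; exact f2),
          sc_inv_off (-zc i) w (l := l + 1) (by rw [hl1]; exact f3)
            (by rw [hl1]; exact fun h5 => f1 (add_right_cancel h5))]
        exact hw l hl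
      rcases downZ (zc i) r (good_mul (good_gz _ r) hx) hB hper' hw' with hC | hC
      · exfalso
        have h1 := hf _ hC (w⁻¹ (-a + 1))
        have h2 : w (w⁻¹ (-a + 1)) = -a + 1 := w.apply_symm_apply _
        rw [Equiv.Perm.mul_apply, Equiv.Perm.mul_apply, hs, h2, sc_on _ hbz] at h1
        have h3 : (1 : ℤ) - (-a + 1) = a := by ring
        rw [h3, sc_off (-zc i) (by rw [haz]; exact f1) (by rw [haz]; exact f2)] at h1
        omega
      · exact Or.inr hC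

end Pool.Agent.Lib.MP_f146a9_al.DV
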