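import Pool.Agent.Lib.MP_f146a9_al.DVZ.Affine
import Pool.Agent.Lib.MP_f146a9_al.DVC.HomC
import Pool.Agent.Lib.MP_f146a9_al.DVC.PermLC
import Pool.Agent.Lib.MP_f146a9_al.DVC.FormC
import Pool.Agent.Lib.MP_f146a9_al.DVC.StepC

/-!
MP_f146a9_al. The cells of the Artin groups of the affine types C~, and all types together.
-/

namespace Pool.Agent.Lib.MP_f146a9_al.DV

open CoxeterSystem

theorem good_gzC {k : ℕ} (i : Fin (k + 3)) (r : ℚ) : GoodZ (2 * k + 1) (gzC i r) := by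
  unfold gzC
  split_ifs
  · exact good_gz _ _
  · exact good_mul (good_gz _ _) (good_gz _ _)

theorem rhoC_prop {k : ℕ} (ρ : ArtinGroup (typeCC k) →* (Module.End ℚ Sq)ˣ)
    (hρ : ∀ (i : Fin (k + 3)) (n : ℤ),
      ((ρ ((PresentedGroup.of i : ArtinGroup (typeCC k)) ^ n) : (Module.End ℚ Sq)ˣ) : Module.End ℚ Sq) =
        gzC i n) (g : ArtinGroup (typeCC k)) :
    GoodZ (2 * k + 1) ((ρ g : (Module.End ℚ Sq)ˣ) : Module.End ℚ Sq) ∧
    ∀ (v v' : Sq) (l l' : ℤ), Lead v l → Lead v' l' →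
      pr (((ρ g : (Module.End ℚ Sq)ˣ) : Module.End ℚ Sq) v) (((ρ g : (Module.End ℚ Sq)ˣ) : Module.End ℚ Sq) v') =
        pr v v' := by
  have hg : g ∈ Subgroup.closure
      (Set.range (PresentedGroup.of : Fin (k + 3) → ArtinGroup (typeCC k))) := by
    rw [PresentedGroup.closure_range_of]
    exact Subgroup.mem_top g
  obtain ⟨l, hl, rfl⟩ := exists_list hg
  clear hg
  induction l with
  | nil =>
    rw [List.prod_nil, map_one, Units.val_one]
    exact ⟨good_one, fun v v' l l' _ _ => rfl⟩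
  | cons y l ih =>
    obtain ⟨ih1, ih2⟩ := ih fun z hz => hl z (List.mem_cons_of_mem _ hz)
    obtain ⟨i, n, hn⟩ : ∃ (i : Fin (k + 3)) (n : ℤ),
        y = (PresentedGroup.of i : ArtinGroup (typeCC k)) ^ n := by
      rcases hl y (by simp) with h | h
      · obtain ⟨i, h2⟩ := h
        exact ⟨i, 1, by rw [zpow_one]; exact h2.symm⟩
      · obtain ⟨i, h2⟩ := h
        refine ⟨i, -1, ?_⟩
        rw [zpow_neg_one, ← inv_inv y]
        exact congrArg _ h2.symm
    rw [List.prod_cons, map_mul, Units.val_mul, hn, hρ]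
    refine ⟨good_mul (good_gzC i n) ih1, ?_⟩
    intro v v' a a' hv hv'
    obtain ⟨C, hC⟩ := ih1.bdd
    obtain ⟨b, hb, _⟩ := hC v a hv
    obtain ⟨b', hb', _⟩ := hC v' a' hv'
    rw [Module.End.mul_apply, Module.End.mul_apply, pr_gzC i n hb hb', ih2 v v' a a' hv hv']

theorem cellZ_ineq {x : Module.End ℚ Sq} {w : Equiv.Perm ℤ} (h : CellZ x w)
    (hx : ∀ (v v' : Sq) (l l' : ℤ), Lead v l → Lead v' l' → pr (x v) (x v') = pr v v') (j : ℤ) :
    1 ≤ w j + w (1 - j) := by
  obtain ⟨v, hv, hxv⟩ := (h j).1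
  obtain ⟨v', hv', hxv'⟩ := (h (1 - j)).1
  by_contra hcon
  have h1 := pr_zero hxv hxv' (by omega)
  rw [hx v v' _ _ hv hv'] at h1
  exact pr_ne hv hv' h1

theorem exists_cellsC {k : ℕ} {W : Type*} [Group W] (cs : CoxeterSystem (typeCC k) W) :
    ∃ cell : ArtinGroup (typeCC k) → W → Prop, IsCells cs cell := by
  obtain ⟨f, hf⟩ := exists_permC cs
  obtain ⟨ρ, hρ⟩ := exists_homC k
  have hlen := permC_len cs f hf
  have hinj := permC_injective cs f hf
  refine ⟨fun g w => CellZ ((ρ g : (Module.End ℚ Sq)ˣ) : Module.End ℚ Sq) (f w), ?_, ?_, ?_, ?_⟩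
  · change CellZ ((ρ 1 : (Module.End ℚ Sq)ˣ) : Module.End ℚ Sq) (f 1)
    rw [map_one, map_one, Units.val_one]
    exact cellZ_one
  · intro g w w' h h'
    exact hinj (cellZ_unique h h')
  · intro i n g w hn h hw
    have h1 := upC i (r := (n : ℚ)) (by exact_mod_cast hn) (rhoC_prop ρ hρ g).1 h (symC cs f hf w)
      (fun l hl => (hlen i w l hl).1 hw)
    change CellZ ((ρ (_ * g) : (Module.End ℚ Sq)ˣ) : Module.End ℚ Sq) (f (_ * w))
    rw [map_mul, map_mul, Units.val_mul, hρ, hf]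
    exact h1
  · intro i n g w h hw
    have h2 : ∀ l : ℤ, (l : ZMod (2 * k + 1 + 3)) = zc i → (f w)⁻¹ (l + 1) < (f w)⁻¹ l := by
      intro l hl
      have h3 : ¬ (f w)⁻¹ l < (f w)⁻¹ (l + 1) := by
        rw [← hlen i w l hl]
        omega
      rcases lt_or_gt_of_ne (a := (f w)⁻¹ l) (b := (f w)⁻¹ (l + 1)) (by
        intro h4
        have h5 := (f w)⁻¹.injective h4
        omega) with h4 | h4
      · exact absurd h4 h3
      · exact h4
    have h6 : ∀ w₁ : Equiv.Perm ℤ,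
        CellZ (gzC i n * ((ρ g : (Module.End ℚ Sq)ˣ) : Module.End ℚ Sq)) w₁ →
          ∀ j, 1 ≤ w₁ j + w₁ (1 - j) := by
      intro w₁ hw₁ j
      refine cellZ_ineq hw₁ ?_ j
      have h7 := (rhoC_prop ρ hρ ((PresentedGroup.of i : ArtinGroup (typeCC k)) ^ n * g)).2
      rw [map_mul, Units.val_mul, hρ] at h7
      exact h7
    rcases downC i (n : ℚ) (rhoC_prop ρ hρ g).1 h (symC cs f hf w) (perC cs f hf w) h6 h2 with h1 | h1
    · left
      change CellZ ((ρ (_ * g) : (Module.End ℚ Sq)ˣ) : Module.End ℚ Sq) (f w)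
      rw [map_mul, Units.val_mul, hρ]
      exact h1
    · right
      change CellZ ((ρ (_ * g) : (Module.End ℚ Sq)ˣ) : Module.End ℚ Sq) (f (_ * w))
      rw [map_mul, map_mul, Units.val_mul, hρ, hf]
      exact h1

/-- the Coxeter matrices of the classical types `A_n`, `B_n`, `D_n` and of the affine types `A~_n`, `C~_n`, `n ≥ 2` -/
inductive IsClassicalOrAffineAC : {B : Type} → CoxeterMatrix B → Prop
  | A (n : ℕ) : IsClassicalOrAffineAC (CoxeterMatrix.A n)
  | B (n : ℕ) : IsClassicalOrAffineAC (CoxeterMatrix.B n)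
  | D (m : ℕ) : IsClassicalOrAffineAC (typeD m)
  | affineA (n : ℕ) : IsClassicalOrAffineAC (typeAA n)
  | affineC (k : ℕ) : IsClassicalOrAffineAC (typeCC k)

/-- all types -/
theorem exists_cells_allC {B : Type} {M : CoxeterMatrix B} (hM : IsClassicalOrAffineAC M) {W : Type*}
    [Group W] (cs : CoxeterSystem M W) : ∃ cell : ArtinGroup M → W → Prop, IsCells cs cell := by
  cases hM with
  | A n => exact exists_cells cs
  | B n => exact exists_cellsAB _ (Or.inr rfl) cs
  | D m => exact exists_cellsD cs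
  | affineA n => exact exists_cellsZ cs
  | affineC k => exact exists_cellsC cs

end Pool.Agent.Lib.MP_f146a9_al.DV
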