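import Pool.Agent.Lib.MP_f146a9_al.DVZ.LeadZ

/-!
MP_f146a9_al. The affine types C~ as symmetric affine type A~.
-/

namespace Pool.Agent.Lib.MP_f146a9_al.DV

/-- The Coxeter matrix of the affine type `C~_(k+2)`: a path of `k + 3` nodes with the label 4 on its first
and on its last edge and the label 3 on the others -/
def typeCC (k : ℕ) : CoxeterMatrix (Fin (k + 3)) where
  M := Matrix.of fun i j : Fin (k + 3) => if (i : ℕ) = j then 1
    else if (i : ℕ) + 1 = j ∨ (j : ℕ) + 1 = i then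
      (if (i : ℕ) = 0 ∨ (j : ℕ) = 0 ∨ (i : ℕ) = k + 2 ∨ (j : ℕ) = k + 2 then 4 else 3) else 2
  isSymm := by
    ext i j
    simp only [Matrix.transpose_apply, Matrix.of_apply]
    split_ifs <;> omega
  diagonal := by
    intro i
    simp
  off_diagonal := by
    intro i j h
    have h1 : (i : ℕ) ≠ j := fun h2 => h (Fin.ext h2)
    simp only [Matrix.of_apply]
    split_ifs <;> omega

/-- the class of the node `i` modulo `2 k + 4` -/
def zc {k : ℕ} (i : Fin (k + 3)) : ZMod (2 * k + 1 + 3) := ((i : ℕ) : ZMod (2 * k + 1 + 3))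

/-- the operator of the generator `i` of type C~ -/
def gzC {k : ℕ} (i : Fin (k + 3)) (r : ℚ) : Module.End ℚ Sq :=
  if (i : ℕ) = 0 ∨ (i : ℕ) = k + 2 then gz (n := 2 * k + 1) (zc i) r
  else gz (n := 2 * k + 1) (zc i) r * gz (n := 2 * k + 1) (-zc i) r

/-- the permutation of the generator `i` of type C~ -/
def szC {k : ℕ} (i : Fin (k + 3)) : Equiv.Perm ℤ :=
  if (i : ℕ) = 0 ∨ (i : ℕ) = k + 2 then sz (n := 2 * k + 1) (zc i)
  else sz (n := 2 * k + 1) (zc i) * sz (n := 2 * k + 1) (-zc i)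

/-- symmetric permutations of the integers -/
def SymZ (w : Equiv.Perm ℤ) : Prop := ∀ a, w (1 - a) = 1 - w a

/-- the alternating pairing of two sequences -/
noncomputable def pr (v v' : Sq) : ℚ := ∑ᶠ a : ℤ, (-1 : ℚ) ^ a * (v a * v' (1 - a))

/-- residues: `2 i = 0` only for the outer nodes -/
theorem zc_neg_eq {k : ℕ} (i : Fin (k + 3)) (h : (i : ℕ) = 0 ∨ (i : ℕ) = k + 2) : -zc i = zc i := by
  have h0 : ((2 * k + 1 + 3 : ℕ) : ZMod (2 * k + 1 + 3)) = 0 := ZMod.natCast_self _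
  rw [neg_eq_iff_add_eq_zero, zc, ← Nat.cast_add]
  rcases h with h | h
  · rw [h]; simp
  · rw [h, show k + 2 + (k + 2) = 2 * k + 1 + 3 by ring, h0]

/-- an integer of the class of `i` -/
theorem zc_coe {k : ℕ} (i : Fin (k + 3)) : (((i : ℕ) : ℤ) : ZMod (2 * k + 1 + 3)) = zc i := by
  rw [zc, Int.cast_natCast]

/-- equality of classes of integers -/
theorem z_eq_iff {k : ℕ} (a b : ℤ) : (a : ZMod (2 * k + 1 + 3)) = (b : ZMod (2 * k + 1 + 3)) ↔
    ∃ q : ℤ, b = a + q * (2 * k + 4) := by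
  rw [ZMod.intCast_eq_intCast_iff, Int.modEq_iff_dvd]
  constructor
  · rintro ⟨q, hq⟩
    refine ⟨q, ?_⟩
    push_cast at hq
    linarith
  · rintro ⟨q, hq⟩
    refine ⟨q, ?_⟩
    push_cast
    rw [hq]
    ring

end Pool.Agent.Lib.MP_f146a9_al.DV
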