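import Pool.Agent.Lib.MP_f146a9_al.DVC.Defs
import Pool.Agent.Lib.MP_f146a9_al.DVZ.PermFZ

namespace Pool.Agent.Lib.MP_f146a9_al.DV

/-! the relations of the exchanges -/

private theorem PFC_rel {n : ℕ} (x y : ZMod (n + 3)) : (sz x * sz y) ^ (typeAA n) x y = 1 := by
  obtain ⟨f, hf⟩ := exists_permZ (typeAA n).toCoxeterSystem
  have h := (typeAA n).toCoxeterSystem.simple_mul_simple_pow x y
  have h2 := congrArg f h
  rw [map_pow, map_mul, hf, hf, map_one] at h2
  exact h2

private theorem PFC_M {n : ℕ} (x y : ZMod (n + 3)) :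
    (typeAA n) x y = if x = y then 1 else if y = x + 1 ∨ x = y + 1 then 3 else 2 := rfl

private theorem PFC_sq {n : ℕ} (x : ZMod (n + 3)) : sz x * sz x = 1 := by
  have h := PFC_rel x x
  rw [PFC_M, if_pos rfl, pow_one] at h
  exact h

private theorem PFC_cube {n : ℕ} {x y : ZMod (n + 3)} (h : y = x + 1 ∨ x = y + 1) :
    (sz x * sz y) ^ 3 = 1 := by
  have hne : x ≠ y := by
    rcases h with h | h
    · rw [h]
      exact (zadd_ne x).symm
    · rw [h]
      exact zadd_ne y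
  have h1 := PFC_rel x y
  rw [PFC_M, if_neg hne, if_pos h] at h1
  exact h1

private theorem PFC_commute_of {G : Type*} [Group G] {x y : G} (hx : x * x = 1) (hy : y * y = 1)
    (h : (x * y) ^ 2 = 1) : Commute x y := by
  have hx' : x⁻¹ = x := inv_eq_of_mul_eq_one_right hx
  have hy' : y⁻¹ = y := inv_eq_of_mul_eq_one_right hy
  have h1 : (x * y)⁻¹ = x * y := inv_eq_of_mul_eq_one_right (by rw [← pow_two]; exact h)
  rw [mul_inv_rev, hx', hy'] at h1
  exact h1.symm

private theorem PFC_comm {n : ℕ} {x y : ZMod (n + 3)} (h1 : x ≠ y) (h2 : y ≠ x + 1)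
    (h3 : x ≠ y + 1) : Commute (sz x) (sz y) := by
  have h := PFC_rel x y
  rw [PFC_M, if_neg h1, if_neg (by tauto)] at h
  exact PFC_commute_of (PFC_sq x) (PFC_sq y) h

private theorem PFC_noq {k : ℕ} {d q : ℤ} (h1 : 0 < d) (h2 : d < 2 * k + 4) :
    d ≠ q * (2 * k + 4) := by
  intro h
  have hk : (0 : ℤ) ≤ k := Int.natCast_nonneg k
  rcases le_or_gt q 0 with hq | hq
  · have : q * (2 * (k : ℤ) + 4) ≤ 0 := mul_nonpos_of_nonpos_of_nonneg hq (by linarith)
    linarith
  · have : 1 * (2 * (k : ℤ) + 4) ≤ q * (2 * (k : ℤ) + 4) :=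
      mul_le_mul_of_nonneg_right (by omega) (by linarith)
    linarith

/-- exchanges at distance at least two commute -/
private theorem PFC_far {k : ℕ} (a b : ℤ) (h1 : 2 ≤ b - a) (h2 : b - a ≤ 2 * k + 2) :
    Commute (sz (n := 2 * k + 1) (a : ZMod (2 * k + 1 + 3)))
      (sz (n := 2 * k + 1) (b : ZMod (2 * k + 1 + 3))) := by
  apply PFC_comm
  · intro h
    obtain ⟨q, hq⟩ := (z_eq_iff a b).1 h
    exact PFC_noq (k := k) (d := b - a) (q := q) (by linarith) (by linarith) (by linarith)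
  · intro h
    have h' : ((a + 1 : ℤ) : ZMod (2 * k + 1 + 3)) = (b : ZMod (2 * k + 1 + 3)) := by
      push_cast
      exact h.symm
    obtain ⟨q, hq⟩ := (z_eq_iff (a + 1) b).1 h'
    exact PFC_noq (k := k) (d := b - a - 1) (q := q) (by linarith) (by linarith) (by linarith)
  · intro h
    have h' : ((a : ℤ) : ZMod (2 * k + 1 + 3)) = ((b + 1 : ℤ) : ZMod (2 * k + 1 + 3)) := by
      push_cast
      exact h
    obtain ⟨q, hq⟩ := (z_eq_iff a (b + 1)).1 h'
    exact PFC_noq (k := k) (d := b + 1 - a) (q := q) (by linarith) (by linarith) (by linarith)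

private theorem PFC_zc {k : ℕ} (i : Fin (k + 3)) :
    zc i = ((((i : ℕ) : ℤ)) : ZMod (2 * k + 1 + 3)) := (zc_coe i).symm

private theorem PFC_zn {k : ℕ} (i : Fin (k + 3)) :
    -zc i = (((-((i : ℕ) : ℤ)) : ℤ) : ZMod (2 * k + 1 + 3)) := by
  rw [PFC_zc]
  push_cast
  rfl

/-! group theory -/

private theorem PFC_braid {G : Type*} [Group G] {t a : G} (ht : t * t = 1) (ha : a * a = 1)
    (h1 : (t * a) ^ 3 = 1) : t * a * t = a * t * a := by
  have h2 : t * a * t * (a * t * a) = 1 := by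
    rw [← h1]
    simp only [pow_succ, pow_zero, one_mul, mul_assoc]
  have h3 : (a * t * a) * (a * t * a) = 1 := by
    have e : (a * t * a) * (a * t * a) = a * (t * ((a * a) * (t * a))) := by
      simp only [mul_assoc]
    rw [e, ha, one_mul, ← mul_assoc t, ht, one_mul, ha]
  exact mul_right_cancel (h2.trans h3.symm)

private theorem PFC_four {G : Type*} [Group G] {t a b : G} (ht : t * t = 1) (ha : a * a = 1)
    (hb : b * b = 1) (hab : a * b = b * a) (h1 : (t * a) ^ 3 = 1) (h2 : (t * b) ^ 3 = 1) :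
    (t * (a * b)) ^ 4 = 1 := by
  have e1 := PFC_braid ht ha h1
  have e2 := PFC_braid ht hb h2
  have hx : t * (a * b) * (t * (a * b)) = a * t * (a * b) * (t * a) := by
    calc t * (a * b) * (t * (a * b)) = t * a * b * t * (a * b) := by simp only [mul_assoc]
      _ = t * a * b * t * (b * a) := by rw [hab]
      _ = t * a * (b * t * b) * a := by simp only [mul_assoc]
      _ = t * a * (t * b * t) * a := by rw [e2]
      _ = (t * a * t) * b * t * a := by simp only [mul_assoc]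
      _ = (a * t * a) * b * t * a := by rw [e1]
      _ = a * t * (a * b) * (t * a) := by simp only [mul_assoc]
  have h4 : (t * (a * b)) ^ 4 = (t * (a * b) * (t * (a * b))) * (t * (a * b) * (t * (a * b))) := by
    rw [show (4 : ℕ) = 2 + 2 from rfl, pow_add, pow_two]
  have k1 : (t * a) * (a * t) = 1 := by
    rw [mul_assoc, ← mul_assoc a, ha, one_mul, ht]
  have k2 : (a * b) * (a * b) = 1 := by
    calc (a * b) * (a * b) = (a * b) * (b * a) := by rw [hab]
      _ = a * (b * b) * a := by simp only [mul_assoc]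
      _ = 1 := by rw [hb, mul_one, ha]
  have k3 : (a * t) * (t * a) = 1 := by
    rw [mul_assoc, ← mul_assoc t, ht, one_mul, ha]
  rw [h4, hx]
  calc a * t * (a * b) * (t * a) * (a * t * (a * b) * (t * a))
      = a * t * (a * b) * ((t * a) * (a * t)) * ((a * b) * (t * a)) := by simp only [mul_assoc]
    _ = a * t * ((a * b) * (a * b)) * (t * a) := by rw [k1]; simp only [mul_assoc, one_mul]
    _ = 1 := by rw [k2, mul_one, k3]

private theorem PFC_inv {G : Type*} [Group G] {x y : G} {n : ℕ} (hx : x * x = 1) (hy : y * y = 1)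
    (h : (x * y) ^ n = 1) : (y * x) ^ n = 1 := by
  have hx' : x⁻¹ = x := inv_eq_of_mul_eq_one_right hx
  have hy' : y⁻¹ = y := inv_eq_of_mul_eq_one_right hy
  have e : y * x = (x * y)⁻¹ := by rw [mul_inv_rev, hx', hy']
  rw [e, inv_pow, h, inv_one]

private theorem PFC_sq_of_comm {G : Type*} [Group G] {x y : G} (hx : x * x = 1) (hy : y * y = 1)
    (h : Commute x y) : (x * y) ^ 2 = 1 := by
  rw [h.mul_pow, pow_two, pow_two, hx, hy, one_mul]

/-! the permutations `szC` -/

private theorem PFC_outer {k : ℕ} {i : Fin (k + 3)} (h : (i : ℕ) = 0 ∨ (i : ℕ) = k + 2) :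
    szC i = sz (n := 2 * k + 1) (zc i) := by
  unfold szC
  rw [if_pos h]

private theorem PFC_inner {k : ℕ} {i : Fin (k + 3)} (h : ¬ ((i : ℕ) = 0 ∨ (i : ℕ) = k + 2)) :
    szC i = sz (n := 2 * k + 1) (zc i) * sz (n := 2 * k + 1) (-zc i) := by
  unfold szC
  rw [if_neg h]

private theorem PFC_self {k : ℕ} {i : Fin (k + 3)} (h : ¬ ((i : ℕ) = 0 ∨ (i : ℕ) = k + 2)) :
    Commute (sz (n := 2 * k + 1) (zc i)) (sz (n := 2 * k + 1) (-zc i)) := by
  have hi := i.isLt
  rw [PFC_zn, PFC_zc]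
  exact (PFC_far _ _ (by omega) (by omega)).symm

private theorem PFC_szC_sq {k : ℕ} (i : Fin (k + 3)) : szC i * szC i = 1 := by
  by_cases h : (i : ℕ) = 0 ∨ (i : ℕ) = k + 2
  · rw [PFC_outer h, PFC_sq]
  · rw [PFC_inner h, ← pow_two]
    exact PFC_sq_of_comm (PFC_sq _) (PFC_sq _) (PFC_self h)

private theorem PFC_szC_far {k : ℕ} (i j : Fin (k + 3)) (h : (i : ℕ) + 1 < j) :
    Commute (szC i) (szC j) := by
  have hi := i.isLt
  have hj := j.isLt
  have c1 : Commute (sz (n := 2 * k + 1) (zc i)) (sz (n := 2 * k + 1) (zc j)) := by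
    rw [PFC_zc, PFC_zc]
    exact PFC_far _ _ (by omega) (by omega)
  have c2 : Commute (sz (n := 2 * k + 1) (zc i)) (sz (n := 2 * k + 1) (-zc j)) := by
    rw [PFC_zn, PFC_zc]
    exact (PFC_far _ _ (by omega) (by omega)).symm
  have c3 : Commute (sz (n := 2 * k + 1) (-zc i)) (sz (n := 2 * k + 1) (zc j)) := by
    rw [PFC_zn, PFC_zc j]
    exact PFC_far _ _ (by omega) (by omega)
  have c4 : Commute (sz (n := 2 * k + 1) (-zc i)) (sz (n := 2 * k + 1) (-zc j)) := by
    rw [PFC_zn, PFC_zn]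
    exact (PFC_far _ _ (by omega) (by omega)).symm
  by_cases h1 : (i : ℕ) = 0 ∨ (i : ℕ) = k + 2
  · rw [PFC_outer h1]
    by_cases h2 : (j : ℕ) = 0 ∨ (j : ℕ) = k + 2
    · rw [PFC_outer h2]
      exact c1
    · rw [PFC_inner h2]
      exact c1.mul_right c2
  · rw [PFC_inner h1]
    by_cases h2 : (j : ℕ) = 0 ∨ (j : ℕ) = k + 2
    · rw [PFC_outer h2]
      exact c1.mul_left c3
    · rw [PFC_inner h2]
      exact (c1.mul_right c2).mul_left (c3.mul_right c4)

private theorem PFC_succ {k : ℕ} {i j : Fin (k + 3)} (h : (i : ℕ) + 1 = j) : zc j = zc i + 1 := by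
  unfold zc
  rw [← h]
  push_cast
  rfl

private theorem PFC_near {k : ℕ} (i j : Fin (k + 3)) (h : (i : ℕ) + 1 = j) (hi0 : (i : ℕ) ≠ 0)
    (hj1 : (j : ℕ) ≠ k + 2) : (szC i * szC j) ^ 3 = 1 := by
  have hi := i.isLt
  have hj := j.isLt
  rw [PFC_inner (i := i) (by omega), PFC_inner (i := j) (by omega)]
  have c2 : Commute (sz (n := 2 * k + 1) (zc i)) (sz (n := 2 * k + 1) (-zc j)) := by
    rw [PFC_zn, PFC_zc]
    exact (PFC_far _ _ (by omega) (by omega)).symm
  have c3 : Commute (sz (n := 2 * k + 1) (-zc i)) (sz (n := 2 * k + 1) (zc j)) := by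
    rw [PFC_zn, PFC_zc j]
    exact PFC_far _ _ (by omega) (by omega)
  have c0 := PFC_self (i := i) (by omega)
  have c1 := PFC_self (i := j) (by omega)
  have r1 : (sz (n := 2 * k + 1) (zc i) * sz (n := 2 * k + 1) (zc j)) ^ 3 = 1 :=
    PFC_cube (Or.inl (PFC_succ h))
  have r2 : (sz (n := 2 * k + 1) (-zc i) * sz (n := 2 * k + 1) (-zc j)) ^ 3 = 1 := by
    apply PFC_cube
    right
    rw [PFC_succ h]
    ring
  have e : sz (n := 2 * k + 1) (zc i) * sz (n := 2 * k + 1) (-zc i) *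
      (sz (n := 2 * k + 1) (zc j) * sz (n := 2 * k + 1) (-zc j)) =
      (sz (n := 2 * k + 1) (zc i) * sz (n := 2 * k + 1) (zc j)) *
        (sz (n := 2 * k + 1) (-zc i) * sz (n := 2 * k + 1) (-zc j)) := by
    rw [mul_assoc, ← mul_assoc (sz (n := 2 * k + 1) (-zc i)), c3.eq, mul_assoc, ← mul_assoc]
  have c : Commute (sz (n := 2 * k + 1) (zc i) * sz (n := 2 * k + 1) (zc j))
      (sz (n := 2 * k + 1) (-zc i) * sz (n := 2 * k + 1) (-zc j)) :=
    (c0.mul_right c2).mul_left (c3.symm.mul_right c1)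
  rw [e, c.mul_pow, r1, r2, one_mul]

private theorem PFC_end0 {k : ℕ} (i j : Fin (k + 3)) (hi : (i : ℕ) = 0) (hj : (j : ℕ) = 1) :
    (szC i * szC j) ^ 4 = 1 := by
  rw [PFC_outer (Or.inl hi), PFC_inner (i := j) (by omega)]
  have hij : zc j = zc i + 1 := PFC_succ (by omega)
  have h0 : -zc i = zc i := zc_neg_eq i (Or.inl hi)
  refine PFC_four (PFC_sq _) (PFC_sq _) (PFC_sq _) (PFC_self (by omega)).eq
    (PFC_cube (Or.inl hij)) (PFC_cube (Or.inr ?_))
  rw [hij]
  linear_combination -h0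

private theorem PFC_end1 {k : ℕ} (i j : Fin (k + 3)) (hi : (i : ℕ) = k + 2)
    (hj : (j : ℕ) = k + 1) : (szC i * szC j) ^ 4 = 1 := by
  rw [PFC_outer (Or.inr hi), PFC_inner (i := j) (by omega)]
  have hij : zc i = zc j + 1 := PFC_succ (by omega)
  have h0 : -zc i = zc i := zc_neg_eq i (Or.inr hi)
  refine PFC_four (PFC_sq _) (PFC_sq _) (PFC_sq _) (PFC_self (by omega)).eq
    (PFC_cube (Or.inr hij)) (PFC_cube (Or.inl ?_))
  linear_combination h0 + hij

theorem exists_permC {k : ℕ} {W : Type*} [Group W] (cs : CoxeterSystem (typeCC k) W) :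
    ∃ f : W →* Equiv.Perm ℤ, ∀ i : Fin (k + 3), f (cs.simple i) = szC i := by
  have hf : (typeCC k).IsLiftable (fun i : Fin (k + 3) => szC i) := by
    intro i j
    have hM : (typeCC k) i j = if (i : ℕ) = j then 1
      else if (i : ℕ) + 1 = j ∨ (j : ℕ) + 1 = i then
        (if (i : ℕ) = 0 ∨ (j : ℕ) = 0 ∨ (i : ℕ) = k + 2 ∨ (j : ℕ) = k + 2 then 4 else 3)
      else 2 := rfl
    rw [hM]
    show (szC i * szC j) ^ _ = 1
    have hi := i.isLt
    have hj := j.isLt
    by_cases hij : (i : ℕ) = j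
    · have hij' : i = j := Fin.ext hij
      subst hij'
      rw [if_pos rfl, pow_one, PFC_szC_sq]
    rw [if_neg hij]
    by_cases h1 : (i : ℕ) + 1 = j ∨ (j : ℕ) + 1 = i
    · rw [if_pos h1]
      by_cases h2 : (i : ℕ) = 0 ∨ (j : ℕ) = 0 ∨ (i : ℕ) = k + 2 ∨ (j : ℕ) = k + 2
      · rw [if_pos h2]
        rcases h1 with h1 | h1
        · by_cases h3 : (i : ℕ) = 0
          · exact PFC_end0 i j h3 (by omega)
          · exact PFC_inv (PFC_szC_sq j) (PFC_szC_sq i) (PFC_end1 j i (by omega) (by omega))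
        · by_cases h3 : (j : ℕ) = 0
          · exact PFC_inv (PFC_szC_sq j) (PFC_szC_sq i) (PFC_end0 j i h3 (by omega))
          · exact PFC_end1 i j (by omega) (by omega)
      · rw [if_neg h2]
        push Not at h2
        rcases h1 with h1 | h1
        · exact PFC_near i j h1 h2.1 h2.2.2.2
        · exact PFC_inv (PFC_szC_sq j) (PFC_szC_sq i) (PFC_near j i h1 h2.2.1 h2.2.2.1)
    · rw [if_neg h1]
      apply PFC_sq_of_comm (PFC_szC_sq i) (PFC_szC_sq j)
      rcases lt_or_gt_of_ne hij with h | h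
      · exact PFC_szC_far i j (by omega)
      · exact (PFC_szC_far j i (by omega)).symm
  exact ⟨cs.lift ⟨_, hf⟩, fun i => cs.lift_apply_simple hf i⟩

private theorem PFC_sz_sym {n : ℕ} (x : ZMod (n + 3)) (a : ℤ) :
    sz x (1 - a) = 1 - sz (-x) a := by
  show szf x (1 - a) = 1 - szf (-x) a
  unfold szf
  have e1 : (((1 - a : ℤ)) : ZMod (n + 3)) = x ↔ (a : ZMod (n + 3)) = -x + 1 := by
    push_cast
    constructor
    · intro h
      linear_combination -h
    · intro h
      linear_combination -h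
  have e2 : (((1 - a : ℤ)) : ZMod (n + 3)) = x + 1 ↔ (a : ZMod (n + 3)) = -x := by
    push_cast
    constructor
    · intro h
      linear_combination -h
    · intro h
      linear_combination -h
  have hne : ¬ ((a : ZMod (n + 3)) = -x ∧ (a : ZMod (n + 3)) = -x + 1) := by
    rintro ⟨h1, h2⟩
    exact zadd_ne (-x) (h2.symm.trans h1)
  simp only [e1, e2]
  by_cases h1 : (a : ZMod (n + 3)) = -x
  · have h2 : ¬ (a : ZMod (n + 3)) = -x + 1 := fun h => hne ⟨h1, h⟩
    rw [if_neg h2, if_pos h1, if_pos h1]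
    ring
  · rw [if_neg h1]
    by_cases h2 : (a : ZMod (n + 3)) = -x + 1
    · rw [if_pos h2, if_neg h1, if_pos h2]
      ring
    · rw [if_neg h2, if_neg h1, if_neg h2]

private theorem PFC_szC_sym {k : ℕ} (i : Fin (k + 3)) : SymZ (szC i) := by
  intro a
  by_cases h : (i : ℕ) = 0 ∨ (i : ℕ) = k + 2
  · rw [PFC_outer h, PFC_sz_sym, zc_neg_eq i h]
  · rw [PFC_inner h, Equiv.Perm.mul_apply, PFC_sz_sym, neg_neg, PFC_sz_sym,
      ← Equiv.Perm.mul_apply, ← (PFC_self h).eq]

theorem symC {k : ℕ} {W : Type*} [Group W] (cs : CoxeterSystem (typeCC k) W) (f : W →* Equiv.Perm ℤ)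
    (hf : ∀ i : Fin (k + 3), f (cs.simple i) = szC i) (w : W) : SymZ (f w) := by
  induction w using cs.simple_induction_left with
  | one =>
    intro a
    rw [map_one]
    rfl
  | mul_simple_left w i ih =>
    intro a
    rw [map_mul, hf, Equiv.Perm.mul_apply, Equiv.Perm.mul_apply, ih a, PFC_szC_sym]

private theorem PFC_per {n : ℕ} (x : ZMod (n + 3)) (a : ℤ) :
    sz x (a + ((n : ℤ) + 3)) = sz x a + ((n : ℤ) + 3) := by
  obtain ⟨f, hf⟩ := exists_permZ (typeAA n).toCoxeterSystem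
  have h := perZ (typeAA n).toCoxeterSystem f hf ((typeAA n).toCoxeterSystem.simple x) a
  rw [hf] at h
  exact h

private theorem PFC_szC_per {k : ℕ} (i : Fin (k + 3)) (a : ℤ) :
    szC i (a + (((2 * k + 1 : ℕ) : ℤ) + 3)) = szC i a + (((2 * k + 1 : ℕ) : ℤ) + 3) := by
  by_cases h : (i : ℕ) = 0 ∨ (i : ℕ) = k + 2
  · rw [PFC_outer h]
    exact PFC_per _ a
  · rw [PFC_inner h, Equiv.Perm.mul_apply, Equiv.Perm.mul_apply, PFC_per, PFC_per]

theorem perC {k : ℕ} {W : Type*} [Group W] (cs : CoxeterSystem (typeCC k) W) (f : W →* Equiv.Perm ℤ)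
    (hf : ∀ i : Fin (k + 3), f (cs.simple i) = szC i) (w : W) (a : ℤ) :
    f w (a + (((2 * k + 1 : ℕ) : ℤ) + 3)) = f w a + (((2 * k + 1 : ℕ) : ℤ) + 3) := by
  induction w using cs.simple_induction_left with
  | one =>
    rw [map_one]
    rfl
  | mul_simple_left w i ih =>
    rw [map_mul, hf, Equiv.Perm.mul_apply, Equiv.Perm.mul_apply, ih, PFC_szC_per]

end Pool.Agent.Lib.MP_f146a9_al.DV
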